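import Pool.Agent.Zk43.CK.RingB

/-!
# Completing an orthogonal family
-/

set_option autoImplicit false
set_option maxHeartbeats 400000

open Finset

namespace Pool.Agent.Zk43.CK

open Pool.Agent.Zk50.SD

variable {R : Type*} [Ring R]

/-- The family `β`, completed by `g - ∑ β` at the index `d`. -/
def adj (g : R) (d : ℕ) (β : ℕ → R) (i : ℕ) : R :=
  if i = d then g - ∑ j ∈ (range (2 * d + 1)).erase d, β j else if i ≤ 2 * d then β i else 0

variable {g : R} {d : ℕ} {β : ℕ → R}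

lemma adj_self : adj g d β d = g - ∑ j ∈ (range (2 * d + 1)).erase d, β j := if_pos rfl

lemma adj_ne {i : ℕ} (h : i ≠ d) (h2 : i ≤ 2 * d) : adj g d β i = β i := by
  rw [adj, if_neg h, if_pos h2]

lemma adj_out {i : ℕ} (h2 : 2 * d < i) : adj g d β i = 0 := by
  rw [adj, if_neg (by omega), if_neg (by omega)]

lemma mem_er {i : ℕ} : i ∈ (range (2 * d + 1)).erase d ↔ i ≠ d ∧ i ≤ 2 * d := by
  rw [mem_erase, mem_range]
  constructor
  · rintro ⟨h1, h2⟩
    exact ⟨h1, by omega⟩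
  · rintro ⟨h1, h2⟩
    exact ⟨h1, by omega⟩

lemma adj_sum : ∑ i ∈ range (2 * d + 1), adj g d β i = g := by
  have hd : d ∈ range (2 * d + 1) := mem_range.2 (by omega)
  rw [← add_sum_erase _ _ hd, adj_self]
  have : ∑ i ∈ (range (2 * d + 1)).erase d, adj g d β i =
      ∑ i ∈ (range (2 * d + 1)).erase d, β i :=
    sum_congr rfl (fun i hi => adj_ne (mem_er.1 hi).1 (mem_er.1 hi).2)
  rw [this, sub_add_cancel]

lemma adj_left (hg : g * g = g) (h1 : ∀ i, i ≠ d → i ≤ 2 * d → g * β i = β i) (i : ℕ) :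
    g * adj g d β i = adj g d β i := by
  unfold adj
  split_ifs with h2 h3
  · rw [mul_sub, hg, mul_sum]
    congr 1
    exact sum_congr rfl (fun j hj => h1 j (mem_er.1 hj).1 (mem_er.1 hj).2)
  · exact h1 i h2 h3
  · exact mul_zero _

lemma adj_right (hg : g * g = g) (h1 : ∀ i, i ≠ d → i ≤ 2 * d → β i * g = β i) (i : ℕ) :
    adj g d β i * g = adj g d β i := by
  unfold adj
  split_ifs with h2 h3
  · rw [sub_mul, hg, sum_mul]
    congr 1
    exact sum_congr rfl (fun j hj => h1 j (mem_er.1 hj).1 (mem_er.1 hj).2)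
  · exact h1 i h2 h3
  · exact zero_mul _

lemma adj_mul (hg : g * g = g) (h1 : ∀ i, i ≠ d → i ≤ 2 * d → g * β i = β i)
    (h2 : ∀ i, i ≠ d → i ≤ 2 * d → β i * g = β i)
    (h3 : ∀ i j, i ≠ d → i ≤ 2 * d → j ≠ d → j ≤ 2 * d → β i * β j = if i = j then β i else 0)
    (i j : ℕ) : adj g d β i * adj g d β j = if i = j then adj g d β i else 0 := by
  obtain ⟨S, hS⟩ : ∃ S, S = ∑ j ∈ (range (2 * d + 1)).erase d, β j := ⟨_, rfl⟩
  have s1 : ∀ i, i ≠ d → i ≤ 2 * d → S * β i = β i := by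
    intro i hi hi2
    rw [hS, sum_mul, sum_eq_single i]
    · rw [h3 i i hi hi2 hi hi2, if_pos rfl]
    · intro j hj hji
      rw [h3 j i (mem_er.1 hj).1 (mem_er.1 hj).2 hi hi2, if_neg hji]
    · intro h
      exact absurd (mem_er.2 ⟨hi, hi2⟩) h
  have s2 : ∀ i, i ≠ d → i ≤ 2 * d → β i * S = β i := by
    intro i hi hi2
    rw [hS, mul_sum, sum_eq_single i]
    · rw [h3 i i hi hi2 hi hi2, if_pos rfl]
    · intro j hj hji
      rw [h3 i j hi hi2 (mem_er.1 hj).1 (mem_er.1 hj).2, if_neg (Ne.symm hji)]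
    · intro h
      exact absurd (mem_er.2 ⟨hi, hi2⟩) h
  have s3 : S * S = S := by
    conv_lhs => rw [hS, sum_mul]
    rw [hS]
    refine sum_congr rfl (fun j hj => ?_)
    rw [← hS]
    exact s2 j (mem_er.1 hj).1 (mem_er.1 hj).2
  have s4 : g * S = S := by
    rw [hS, mul_sum]
    exact sum_congr rfl (fun j hj => h1 j (mem_er.1 hj).1 (mem_er.1 hj).2)
  have s5 : S * g = S := by
    rw [hS, sum_mul]
    exact sum_congr rfl (fun j hj => h2 j (mem_er.1 hj).1 (mem_er.1 hj).2)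
  rcases lt_or_ge (2 * d) i with hi | hi
  · rw [adj_out hi, zero_mul]
    split_ifs <;> rfl
  rcases lt_or_ge (2 * d) j with hj | hj
  · rw [adj_out hj, mul_zero, if_neg (by omega)]
  by_cases hid : i = d
  · by_cases hjd : j = d
    · rw [hid, hjd, if_pos rfl, adj_self, ← hS, sub_mul, mul_sub, mul_sub, hg, s4, s5, s3, sub_self,
        sub_zero]
    · rw [hid, if_neg (Ne.symm hjd), adj_self, adj_ne hjd hj, ← hS, sub_mul, h1 j hjd hj,
        s1 j hjd hj, sub_self]
  · by_cases hjd : j = d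
    · rw [hjd, if_neg hid, adj_self, adj_ne hid hi, ← hS, mul_sub, h2 i hid hi, s2 i hid hi,
        sub_self]
    · rw [adj_ne hid hi, adj_ne hjd hj, h3 i j hid hi hjd hj]

lemma adj_tau {τ : R →+ R} (hτg : τ g = g)
    (h : ∀ i, i ≠ d → i ≤ 2 * d → τ (β i) = β (2 * d - i)) (i : ℕ) (hi : i ≤ 2 * d) :
    τ (adj g d β i) = adj g d β (2 * d - i) := by
  by_cases hid : i = d
  · have e1 : 2 * d - i = d := by omega
    rw [e1, hid, adj_self, map_sub, hτg, map_sum]
    congr 1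
    refine sum_nbij' (fun j => 2 * d - j) (fun j => 2 * d - j) ?_ ?_ ?_ ?_ ?_
    · intro j hj
      rw [mem_er] at hj ⊢
      omega
    · intro j hj
      rw [mem_er] at hj ⊢
      omega
    · intro j hj
      rw [mem_er] at hj
      omega
    · intro j hj
      rw [mem_er] at hj
      omega
    · intro j hj
      rw [mem_er] at hj
      exact h j hj.1 hj.2
  · rw [adj_ne hid hi, adj_ne (by omega) (by omega), h i hid hi]

end Pool.Agent.Zk43.CK
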