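import Pool.Agent.Zk50.SD.Defs

/-!
# Nil complements: definitions
-/

open CategoryTheory AlgebraicGeometry

universe u v w

namespace Pool.Agent.Zk43.CK

open Pool.Agent.H914 Pool.Agent.H914.VarClass Pool.Agent.H914.VarClass.Obj Pool.Agent.W492.BB
  Pool.Agent.W550.Corr Pool.Agent.TH133 Pool.Agent.Y107 Pool.Agent.Zk50.SD

variable {k : Type u} [Field k] {𝒱 : VarClass k}

/-- `Δ_Y - N⁻¹ • a ∘ ᵗa`, for a correspondence `a ∈ CH(X × Y)`. If `ᵗa ∘ a = N • Δ_X` with `N ≠ 0`,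
it is the projector of `h(Y)` onto the orthogonal complement of the image of `a`. -/
noncomputable def coproj (C : TheoryData.{u, v, 0} 𝒱 ℚ) {X Y : 𝒱.Obj} (a : C.A (X.prod Y))
    (N : ℚ) : C.A (Y.prod Y) :=
  dg C Y - N⁻¹ • C.comp (tp C a) a

/-- `h(Y)` is the orthogonal sum of `h(X)(-e)`, `2 e = dim Y - dim X`, and of a nil motive whose
Kunneth components are algebraic: there is a correspondence `a : h(X)(-e) → h(Y)` with
`ᵗa ∘ a = N • Δ_X`, `N ≠ 0`, such that the projector `g = Δ_Y - N⁻¹ • a ∘ ᵗa` is nil (`NilCor`), and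
for every `i` there is a correspondence `z ∈ CH^(dim Y)(Y × Y)` which acts as `g` on `H^i(Y)` and as
zero on `H^m(Y)`, `m ≠ i`. -/
def NilComplement {C : TheoryData.{u, v, 0} 𝒱 ℚ} {K : Type w} [Field K]
    (H : WeilTheoryData.{u, v, w} C K) (X Y : 𝒱.Obj) : Prop :=
  ∃ (e : ℕ) (N : ℚ) (a : C.A (X.prod Y)), Y.dim = X.dim + 2 * e ∧ N ≠ 0 ∧
    C.Deg ((X.dim : ℤ) + e) a ∧ C.comp a (tp C a) = N • dg C X ∧ NilCor H (coproj C a N) ∧
    ∀ i : ℕ, ∃ z : C.A (Y.prod Y), C.Deg Y.dim z ∧ ∀ (m : ℤ) (y : H.A Y), H.Deg m y →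
      H.act (H.cl z) y = if m = i then H.act (H.cl (coproj C a N)) y else 0

end Pool.Agent.Zk43.CK
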