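import Pool.Agent.Zk43.CK.Main

/-!
# Nil complements: the equivalence relation, and morphisms of non-zero degree
-/

open CategoryTheory AlgebraicGeometry

universe u v w

set_option maxHeartbeats 400000

namespace Pool.Agent.Zk43.CK

open Pool.Agent.H914 Pool.Agent.H914.VarClass Pool.Agent.H914.VarClass.Obj Pool.Agent.W492.BB
  Pool.Agent.W550.Corr Pool.Agent.TH133 Pool.Agent.Y107 Pool.Agent.Zk50.SD

variable {k : Type u} [Field k] {𝒱 : VarClass k} {C : TheoryData.{u, v, 0} 𝒱 ℚ}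
  [hC : IsChowProj C] {K : Type w} [Field K] {H : WeilTheoryData.{u, v, w} C K}
  [hH : IsWeilProj H]

include hC hH

theorem iff_of_nilComplement {X Y : 𝒱.Obj} (h : NilComplement H X Y) :
    ((∃ π, IsCK H X π) ↔ ∃ π, IsCK H Y π) ∧
      ((∃ π, IsCK H X π ∧ IsSelfDual C π) ↔ ∃ π, IsCK H Y π ∧ IsSelfDual C π) := by
  obtain ⟨e, N, a, hd, hN, ha, hab, hn, hz⟩ := h
  have F : Fac e N a (N⁻¹ • tp C a) := Fac.of hd hN ha hab
  rw [← cg0_eq] at hn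
  have hz' : ∀ i : ℕ, ∃ z : C.A (Y.prod Y), C.Deg Y.dim z ∧ ∀ (m : ℤ) (y : H.A Y), H.Deg m y →
      H.act (H.cl z) y = if m = i then H.act (H.cl (cg0 a (N⁻¹ • tp C a))) y else 0 := by
    intro i
    obtain ⟨z, z1, z2⟩ := hz i
    refine ⟨z, z1, fun m y hy => ?_⟩
    rw [cg0_eq]
    exact z2 m y hy
  refine ⟨⟨?_, ?_⟩, ?_, ?_⟩
  · rintro ⟨π, h1⟩
    obtain ⟨Q, q1, -⟩ := F.up hn hz' h1
    exact ⟨Q, q1⟩
  · rintro ⟨π, h1⟩
    obtain ⟨Q, q1, -⟩ := F.down hn h1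
    exact ⟨Q, q1⟩
  · rintro ⟨π, h1, h2⟩
    obtain ⟨Q, q1, q2⟩ := F.up hn hz' h1
    exact ⟨Q, q1, q2 h2⟩
  · rintro ⟨π, h1, h2⟩
    obtain ⟨Q, q1, q2⟩ := F.down hn h1
    exact ⟨Q, q1, q2 h2⟩

theorem iff_of_eqvGen {X Y : 𝒱.Obj} (h : Relation.EqvGen (NilComplement H) X Y) :
    ((∃ π, IsCK H X π) ↔ ∃ π, IsCK H Y π) ∧
      ((∃ π, IsCK H X π ∧ IsSelfDual C π) ↔ ∃ π, IsCK H Y π ∧ IsSelfDual C π) := by
  induction h with
  | rel x y h => exact iff_of_nilComplement h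
  | refl x => exact ⟨Iff.rfl, Iff.rfl⟩
  | symm x y _ ih => exact ⟨ih.1.symm, ih.2.symm⟩
  | trans x y z _ _ ih1 ih2 => exact ⟨ih1.1.trans ih2.1, ih1.2.trans ih2.2⟩

omit hH in
/-- The coimage of a morphism of non-zero degree. -/
lemma cograph_tp {X Y : 𝒱.Obj} (f : Y ⟶ X) {N : ℚ} (hf : C.push f 1 = N • (1 : C.A X)) :
    C.comp (C.cograph f) (tp C (C.cograph f)) = N • dg C X := by
  have h1 : tp C (C.cograph f) = C.graph f := by
    rw [tp_eq_push, TheoryData.cograph, ← C.push_comp]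
    have e1 : Obj.lift f (𝟙 Y) ≫ sw X Y = Obj.lift (𝟙 Y) f := by
      apply prod_ext <;> simp [sw, comp_lift]
    rw [e1]
    rfl
  have h2 : C.mulCorr (N • (1 : C.A X)) = N • dg C X := map_smul (C.push _) _ _
  rw [h1, cograph_graph, hf, h2]

theorem nilComplement_of_morphism {X Y : 𝒱.Obj} (f : Y ⟶ X) {N : ℚ} (hd : Y.dim = X.dim)
    (hN : N ≠ 0) (hf : C.push f 1 = N • (1 : C.A X)) (hn : NilCor H (coproj C (C.cograph f) N))
    (hz : ∀ i : ℕ, ∃ z : C.A (Y.prod Y), C.Deg Y.dim z ∧ ∀ (m : ℤ) (y : H.A Y), H.Deg m y →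
      H.act (H.cl z) y = if m = i then H.act (H.cl (coproj C (C.cograph f) N)) y else 0) :
    NilComplement H X Y := by
  refine ⟨0, N, C.cograph f, by rw [hd, mul_zero, add_zero], hN, ?_, cograph_tp f hf, hn, hz⟩
  have h1 : C.cograph f ∈ C.gr (X.prod Y) X.dim := cograph_mem f
  have h2 : C.cograph f ∈ C.gr (X.prod Y) ((X.dim : ℤ) + (0 : ℕ)) := by
    rw [Nat.cast_zero, add_zero]; exact h1
  exact h2

end Pool.Agent.Zk43.CK
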