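import Pool.Agent.Zk43.CK.Geo3

/-!
# A self-dual decomposition of a nil projector
-/

open CategoryTheory AlgebraicGeometry Finset

universe u v w

set_option maxHeartbeats 400000

namespace Pool.Agent.Zk43.CK

open Pool.Agent.H914 Pool.Agent.H914.VarClass Pool.Agent.H914.VarClass.Obj Pool.Agent.W492.BB
  Pool.Agent.W550.Corr Pool.Agent.TH133 Pool.Agent.Y107 Pool.Agent.Zk50.SD

set_option linter.unusedSectionVars false

section ring

variable {A B : Type*} [Ring A] [Algebra ℚ A] [Ring B] {φ : A →+* B} {τ : A →+ A} {g : A}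
  {D : ℕ} {x : ℕ → A}

/-- A self-dual orthogonal decomposition of the nil idempotent `g`. -/
theorem exists_gamma (hτ : AntiInv τ) (hτφ : ∀ x, φ x = 0 → φ (τ x) = 0) (hg : g * g = g)
    (hτg : τ g = g) (hn : NilAt φ g)
    (hE1 : ∀ i j, φ (x i) * φ (x j) = if i = j then φ (x i) else 0)
    (hE2 : ∀ i, φ (x i) * φ g = φ g * φ (x i))
    (hE3 : ∀ i ≤ 2 * D, φ (τ (x i)) = φ (x (2 * D - i))) :
    ∃ β : ℕ → A, (∀ i, i ≠ D → i ≤ 2 * D → g * β i = β i) ∧
      (∀ i, i ≠ D → i ≤ 2 * D → β i * g = β i) ∧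
      (∀ i j, i ≠ D → i ≤ 2 * D → j ≠ D → j ≤ 2 * D → β i * β j = if i = j then β i else 0) ∧
      (∀ i, i ≠ D → i ≤ 2 * D → τ (β i) = β (2 * D - i)) ∧
      (∀ i, i ≠ D → i ≤ 2 * D → φ (β i) = φ (x i) * φ g) := by
  have hΓ : φ g * φ g = φ g := by rw [← map_mul, hg]
  have hE0 : ∀ i, φ (x i) * φ (x i) = φ (x i) := fun i => by rw [hE1, if_pos rfl]
  -- lifts
  have hlift : ∀ i, ∃ ε : A, ε * ε = ε ∧ g * ε = ε ∧ ε * g = ε ∧ φ ε = φ (x i) * φ g := by
    intro i
    have t1 : φ (g * x i * g) = φ (x i) * φ g := by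
      rw [map_mul, map_mul, ← hE2, mul_assoc, hΓ]
    have t2 : φ (g * x i * g * (g * x i * g)) = φ (x i) * φ g := by
      rw [map_mul, t1, mul_assoc, ← mul_assoc (φ g), ← hE2, mul_assoc (φ (x i)), hΓ, ← mul_assoc,
        hE0]
    obtain ⟨ε, w, h1, h2, h3, h4, -, -⟩ := exists_lift hn (T := g * x i * g)
      (by rw [← mul_assoc, ← mul_assoc, hg]) (by rw [mul_assoc, hg]) (by
        rw [map_mul, t2, t1, mul_assoc, ← mul_assoc (φ g), ← hE2, mul_assoc (φ (x i)), hΓ,
          ← mul_assoc, hE0])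
    exact ⟨ε, h1, h2, h3, by rw [h4, t2]⟩
  choose ε e1 e2 e3 e4 using hlift
  have hker : ∀ y i, φ y = φ (x i) * φ g → i ≤ 2 * D → φ (τ y) = φ g * φ (x (2 * D - i)) := by
    intro y i hy hi
    have h1 : φ (y - x i * g) = 0 := by rw [map_sub, hy, map_mul, sub_self]
    have h2 := hτφ _ h1
    rw [map_sub, map_sub, sub_eq_zero, hτ.mul, hτg, map_mul, hE3 i hi] at h2
    exact h2
  obtain ⟨π, p1, p2, p3⟩ := exists_family hτ hτφ D g ε hg hτg
    (fun i _ => ⟨e1 i, e2 i, e3 i, by
      rw [← e1 i]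
      exact nilAt_factor hn (e2 i) (e3 i)⟩)
    (fun i _ j _ hij => by
      rw [map_mul, e4, e4, mul_assoc, ← mul_assoc (φ g), ← hE2, mul_assoc (φ (x j)), hΓ,
        ← mul_assoc, hE1, if_neg hij, zero_mul])
    (fun i hi j hj => by
      constructor
      · rw [map_mul, hker _ i (e4 i) (by omega), e4, mul_assoc, ← mul_assoc (φ (x _)), hE1,
          if_neg (by omega), zero_mul, mul_zero]
      · rw [map_mul, hker _ j (e4 j) (by omega), e4, mul_assoc, ← mul_assoc (φ g), hΓ, ← hE2,
          ← mul_assoc, hE1, if_neg (by omega), zero_mul])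
  have q1 : ∀ i < D, g * τ (π i) = τ (π i) := by
    intro i hi
    conv_lhs => rw [← hτg]
    rw [← hτ.mul, (p1 i hi).2.2.1]
  have q2 : ∀ i < D, τ (π i) * g = τ (π i) := by
    intro i hi
    conv_lhs => rw [← hτg]
    rw [← hτ.mul, (p1 i hi).2.1]
  refine ⟨fun i => if i < D then π i else τ (π (2 * D - i)), ?_, ?_, ?_, ?_, ?_⟩
  · intro i h1 h2
    by_cases h : i < D
    · simp only [if_pos h]
      exact (p1 i h).2.1
    · simp only [if_neg h]
      exact q1 _ (by omega)
  · intro i h1 h2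
    by_cases h : i < D
    · simp only [if_pos h]
      exact (p1 i h).2.2.1
    · simp only [if_neg h]
      exact q2 _ (by omega)
  · intro i j h1 h2 h3 h4
    by_cases h : i < D
    · by_cases h' : j < D
      · simp only [if_pos h, if_pos h']
        by_cases hij : i = j
        · rw [if_pos hij, ← hij]
          exact (p1 i h).1
        · rw [if_neg hij]
          exact p2 i h j h' hij
      · simp only [if_pos h, if_neg h']
        rw [if_neg (by omega)]
        exact (p3 i h _ (by omega)).2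
    · by_cases h' : j < D
      · simp only [if_neg h, if_pos h']
        rw [if_neg (by omega)]
        exact (p3 _ (by omega) j h').1
      · simp only [if_neg h, if_neg h']
        rw [← hτ.mul]
        by_cases hij : i = j
        · rw [if_pos hij, ← hij, (p1 _ (by omega)).1]
        · rw [if_neg hij, p2 _ (by omega) _ (by omega) (by omega), map_zero]
  · intro i h1 h2
    by_cases h : i < D
    · simp only [if_pos h]
      rw [if_neg (by omega)]
      congr 2
      omega
    · simp only [if_neg h]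
      rw [if_pos (by omega), hτ.inv]
  · intro i h1 h2
    by_cases h : i < D
    · simp only [if_pos h]
      rw [(p1 i h).2.2.2, e4]
    · simp only [if_neg h]
      rw [hker (π (2 * D - i)) (2 * D - i) (by rw [(p1 _ (by omega)).2.2.2, e4]) (by omega), ← hE2]
      congr 3
      omega

end ring

end Pool.Agent.Zk43.CK
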