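import Pool.Agent.Zk43.CK.Adj
import Pool.Agent.Zk43.CK.Defs
import Pool.Agent.Zk50.SD.Main

/-!
# Transport of decompositions along an orthogonal direct factor
-/

open CategoryTheory AlgebraicGeometry

universe u v w

set_option maxHeartbeats 400000

namespace Pool.Agent.Zk43.CK

open Pool.Agent.H914 Pool.Agent.H914.VarClass Pool.Agent.H914.VarClass.Obj Pool.Agent.W492.BB
  Pool.Agent.W550.Corr Pool.Agent.TH133 Pool.Agent.Y107 Pool.Agent.Zk50.SD

set_option linter.unusedSectionVars false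

variable {k : Type u} [Field k] {𝒱 : VarClass k} {C : TheoryData.{u, v, 0} 𝒱 ℚ}
  [hC : IsChowProj C] {X Y Z : 𝒱.Obj}

include hC

section chow

/-- `b ∘ x ∘ a` for `x ∈ CH(Y × Y)`, `a ∈ CH(X × Y)`, `b ∈ CH(Y × X)`. -/
noncomputable def sand (a : C.A (X.prod Y)) (b : C.A (Y.prod X)) (x : C.A (Y.prod Y)) :
    C.A (X.prod X) := C.comp (C.comp a x) b

variable {a : C.A (X.prod Y)} {b : C.A (Y.prod X)}

lemma sand_add (x y : C.A (Y.prod Y)) : sand a b (x + y) = sand a b x + sand a b y := by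
  rw [sand, comp_add, add_comp]
  rfl

lemma sand_mul' (x y : C.A (Y.prod Y)) : C.comp (sand a b y) (sand a b x) =
    sand a b (C.comp y (C.comp (C.comp b a) x)) := by
  simp only [sand, comp_assoc]

lemma tp_sand {N : ℚ} (hN : N ≠ 0) (hb : b = N⁻¹ • tp C a) (x : C.A (Y.prod Y)) :
    tp C (sand a b x) = sand a b (tp C x) := by
  have h1 : tp C b = N⁻¹ • a := by rw [hb, tp_smul, tp_tp]
  have h2 : tp C a = N • b := by rw [hb, smul_smul, mul_inv_cancel₀ hN, one_smul]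
  rw [sand, sand, tp_comp C (ch_comm C), tp_comp C (ch_comm C), h1, h2]
  have e1 : ∀ (Γ : C.A (Y.prod Y)), C.comp Γ (N • b) = N • C.comp Γ b :=
    fun Γ => map_smul (compL C Γ) N b
  have e2 : ∀ (Γ : C.A (Y.prod X)), C.comp (N⁻¹ • a) Γ = N⁻¹ • C.comp a Γ :=
    fun Γ => LinearMap.map_smul₂ (compL C) N⁻¹ a Γ
  have e3 : ∀ (Γ : C.A (Y.prod X)), C.comp a (N • Γ) = N • C.comp a Γ :=
    fun Γ => map_smul (compL C a) N Γ
  rw [e1, e2, e3, smul_smul, inv_mul_cancel₀ hN, one_smul, comp_assoc]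

/-- The data of an orthogonal direct factor. -/
structure Fac (e : ℕ) (N : ℚ) (a : C.A (X.prod Y)) (b : C.A (Y.prod X)) : Prop where
  hd : Y.dim = X.dim + 2 * e
  hN : N ≠ 0
  ha : a ∈ C.gr (X.prod Y) ((X.dim : ℤ) + e)
  hb : b ∈ C.gr (Y.prod X) ((Y.dim : ℤ) + -e)
  hba : b = N⁻¹ • tp C a
  hab : C.comp a b = dg C X

lemma Fac.of {e : ℕ} {N : ℚ} {a : C.A (X.prod Y)} (hd : Y.dim = X.dim + 2 * e) (hN : N ≠ 0)
    (ha : C.Deg ((X.dim : ℤ) + e) a) (hab : C.comp a (tp C a) = N • dg C X) :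
    Fac e N a (N⁻¹ • tp C a) where
  hd := hd
  hN := hN
  ha := ha
  hb := by
    have h1 : tp C a ∈ C.gr (Y.prod X) ((X.dim : ℤ) + e) := tp_mem C ha
    rw [show (X.dim : ℤ) + e = (Y.dim : ℤ) + -e by rw [hd]; push_cast; ring] at h1
    exact Submodule.smul_mem _ _ h1
  hba := rfl
  hab := by
    have e3 : C.comp a (N⁻¹ • tp C a) = N⁻¹ • C.comp a (tp C a) := map_smul (compL C a) _ _
    rw [e3, hab, smul_smul, inv_mul_cancel₀ hN, one_smul]

/-- the complement -/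
noncomputable def cg0 (a : C.A (X.prod Y)) (b : C.A (Y.prod X)) : C.A (Y.prod Y) :=
  dg C Y - C.comp b a

lemma cg0_eq (a : C.A (X.prod Y)) (N : ℚ) : cg0 a (N⁻¹ • tp C a) = coproj C a N := by
  rw [cg0, coproj]
  have e2 : C.comp (N⁻¹ • tp C a) a = N⁻¹ • C.comp (tp C a) a :=
    LinearMap.map_smul₂ (compL C) N⁻¹ (tp C a) a
  rw [e2]

section fac

variable {e : ℕ} {N : ℚ} (F : Fac e N a b)

include F

lemma Fac.comp_cg : C.comp a (cg0 a b) = 0 := by
  rw [cg0, comp_sub, comp_dg, ← comp_assoc, F.hab, dg_comp, sub_self]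

lemma Fac.cg_comp : C.comp (cg0 a b) b = 0 := by
  rw [cg0, sub_comp, dg_comp, comp_assoc, F.hab, comp_dg, sub_self]

lemma Fac.cg_idem0 : C.comp (cg0 a b) (cg0 a b) = cg0 a b := by
  have h1 : C.comp (cg0 a b) (dg C Y - C.comp b a) = cg0 a b := by
    rw [comp_sub, comp_dg, ← comp_assoc, F.cg_comp, zero_comp, sub_zero]
  exact h1

lemma Fac.ba_mem : C.comp b a ∈ C.gr (Y.prod Y) Y.dim := by
  have h1 := comp_mem C F.hb F.ha
  rwa [show (Y.dim : ℤ) + (-(e : ℤ) + e) = Y.dim by ring] at h1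

lemma Fac.tp_ba : tp C (C.comp b a) = C.comp b a := by
  have h1 : tp C b = N⁻¹ • a := by rw [F.hba, tp_smul, tp_tp]
  have h2 : tp C a = N • b := by rw [F.hba, smul_smul, mul_inv_cancel₀ F.hN, one_smul]
  rw [tp_comp C (ch_comm C), h1, h2]
  have e1 : C.comp (N • b) (N⁻¹ • a) = N • C.comp b (N⁻¹ • a) :=
    LinearMap.map_smul₂ (compL C) N b _
  have e2 : C.comp b (N⁻¹ • a) = N⁻¹ • C.comp b a := map_smul (compL C b) _ _
  rw [e1, e2, smul_smul, mul_inv_cancel₀ F.hN, one_smul]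

lemma Fac.sand_cg0 (x : C.A (Y.prod Y)) : sand a b (C.comp (cg0 a b) x) = 0 := by
  rw [sand, ← comp_assoc C a, F.comp_cg, zero_comp, zero_comp]

lemma Fac.sand_dg : sand a b (dg C Y) = dg C X := by
  rw [sand, comp_dg, F.hab]

lemma Fac.fwd_mul0 (x y : C.A (X.prod X)) : C.comp (sand b a y) (sand b a x) =
    sand b a (C.comp y x) := by
  rw [sand_mul', F.hab, dg_comp]

lemma Fac.fwd_dg : sand b a (dg C X) = C.comp b a := by
  rw [sand, comp_dg]

lemma Fac.cg_fwd0 (x : C.A (X.prod X)) : C.comp (sand b a x) (cg0 a b) = 0 := by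
  rw [sand, comp_assoc C _ a, F.comp_cg, comp_zero]

lemma Fac.fwd_cg0 (x : C.A (X.prod X)) : C.comp (cg0 a b) (sand b a x) = 0 := by
  rw [sand, ← comp_assoc C _ _ a, ← comp_assoc C _ b, F.cg_comp, zero_comp, zero_comp]

lemma Fac.fwd_mem0 {x : C.A (X.prod X)} (hx : x ∈ C.gr (X.prod X) X.dim) :
    sand b a x ∈ C.gr (Y.prod Y) Y.dim := by
  have hx' : x ∈ C.gr (X.prod X) ((X.dim : ℤ) + 0) := by rw [add_zero]; exact hx
  have h1 := comp_mem C (comp_mem C F.hb hx') F.ha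
  rwa [show (Y.dim : ℤ) + (-(e : ℤ) + 0 + e) = Y.dim by ring] at h1

lemma Fac.sand_mem0 {x : C.A (Y.prod Y)} (hx : x ∈ C.gr (Y.prod Y) Y.dim) :
    sand a b x ∈ C.gr (X.prod X) X.dim := by
  have hx' : x ∈ C.gr (Y.prod Y) ((Y.dim : ℤ) + 0) := by rw [add_zero]; exact hx
  have h1 := comp_mem C (comp_mem C F.ha hx') F.hb
  rwa [show (X.dim : ℤ) + ((e : ℤ) + 0 + -e) = X.dim by ring] at h1

lemma Fac.tp_fwd (x : C.A (X.prod X)) : tp C (sand b a x) = sand b a (tp C x) := by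
  have h1 : tp C b = N⁻¹ • a := by rw [F.hba, tp_smul, tp_tp]
  apply tp_sand (N := N⁻¹) (inv_ne_zero F.hN)
  rw [inv_inv, h1, smul_smul, mul_inv_cancel₀ F.hN, one_smul]

lemma Fac.tp_bwd (x : C.A (Y.prod Y)) : tp C (sand a b x) = sand a b (tp C x) :=
  tp_sand F.hN F.hba x

end fac

end chow

/-! ### In the rings of correspondences -/

section ring

variable {a : C.A (X.prod Y)} {b : C.A (Y.prod X)}

/-- The map between the rings. -/
noncomputable def sR (a : C.A (X.prod Y)) (b : C.A (Y.prod X)) : Cor C Y →+ Cor C X :=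
  AddMonoidHom.mk' (sand a b) sand_add

lemma sR_apply (x : Cor C Y) : sR a b x = sand a b x := rfl

/-- The complement in the ring. -/
noncomputable def cg (a : C.A (X.prod Y)) (b : C.A (Y.prod X)) : Cor C Y := cg0 a b

variable {e : ℕ} {N : ℚ} (F : Fac e N a b)

include F

lemma Fac.cg_idem : cg a b * cg a b = cg a b := F.cg_idem0

lemma Fac.sR_one : sR a b (1 : Cor C Y) = 1 := F.sand_dg

lemma Fac.sR_mul_cg (x : Cor C Y) : sR a b (x * cg a b) = 0 := F.sand_cg0 x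

lemma Fac.sR_mul (x y : Cor C Y) : sR a b x * sR a b y = sR a b (x * (1 - cg a b) * y) := by
  have h1 : (1 : Cor C Y) - cg a b = (C.comp b a : C.A (Y.prod Y)) := by
    change dg C Y - (dg C Y - C.comp b a) = C.comp b a
    rw [sub_sub_cancel]
  rw [h1]
  exact sand_mul' (x := x) (y := y)

lemma Fac.sR_mul_of_comm {x y : Cor C Y} (h : cg a b * y = y * cg a b) :
    sR a b x * sR a b y = sR a b (x * y) := by
  rw [F.sR_mul, mul_sub, mul_one, sub_mul, mul_assoc x, h, ← mul_assoc, map_sub,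
    F.sR_mul_cg, sub_zero]

lemma Fac.fR_mul (x y : Cor C X) : sR b a x * sR b a y = sR b a (x * y) := F.fwd_mul0 x y

lemma Fac.fR_one : sR b a (1 : Cor C X) = 1 - cg a b := by
  have h1 : (1 : Cor C Y) - cg a b = (C.comp b a : C.A (Y.prod Y)) := by
    change dg C Y - (dg C Y - C.comp b a) = C.comp b a
    rw [sub_sub_cancel]
  rw [h1]
  exact F.fwd_dg

lemma Fac.cg_fR (x : Cor C X) : cg a b * sR b a x = 0 := F.cg_fwd0 x

lemma Fac.fR_cg (x : Cor C X) : sR b a x * cg a b = 0 := F.fwd_cg0 x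

lemma Fac.cg_mem : cg a b ∈ cor0 C Y := by
  have h1 : (C.comp b a : Cor C Y) ∈ cor0 C Y := F.ba_mem
  exact (cor0 C Y).sub_mem (cor0 C Y).one_mem h1

lemma Fac.tpR_cg : tpR C Y (cg a b) = cg a b := by
  change tp C (dg C Y - C.comp b a) = dg C Y - C.comp b a
  rw [tp_sub, tp_dg, F.tp_ba]

lemma Fac.fR_mem {x : Cor C X} (hx : x ∈ cor0 C X) : sR b a x ∈ cor0 C Y := F.fwd_mem0 hx

lemma Fac.sR_mem {x : Cor C Y} (hx : x ∈ cor0 C Y) : sR a b x ∈ cor0 C X := F.sand_mem0 hx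

lemma Fac.tpR_fR (x : Cor C X) : tpR C Y (sR b a x) = sR b a (tpR C X x) := F.tp_fwd x

lemma Fac.tpR_sR (x : Cor C Y) : tpR C X (sR a b x) = sR a b (tpR C Y x) := F.tp_bwd x

section act

variable {K : Type w} [Field K] {H : WeilTheoryData.{u, v, w} C K} [hH : IsWeilProj H]

include hH

omit F in
lemma act_sR (a : C.A (X.prod Y)) (b : C.A (Y.prod X)) (x : Cor C Y) (h : H.A X) :
    actH C X H (sR a b x) h = H.act (H.cl b) (actH C Y H x (H.act (H.cl a) h)) := by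
  have h1 : ∀ x : C.A (Y.prod Y), H.act (H.cl (C.comp (C.comp a x) b)) h =
      H.act (H.cl b) (H.act (H.cl x) (H.act (H.cl a) h)) := by
    intro x
    rw [actH_comp, actH_comp]
  exact h1 x

lemma Fac.act_ab (h : H.A X) : H.act (H.cl b) (H.act (H.cl a) h) = h := by
  rw [← actH_comp, F.hab, actH_dg]

lemma Fac.act_ba (h : H.A Y) : H.act (H.cl a) (H.act (H.cl b) h) =
    h - actH C Y H (cg a b) h := by
  have h1 : actH C Y H ((1 : Cor C Y) - cg a b) h = H.act (H.cl a) (H.act (H.cl b) h) := by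
    have h1 : (1 : Cor C Y) - cg a b = (C.comp b a : C.A (Y.prod Y)) := by
      change dg C Y - (dg C Y - C.comp b a) = C.comp b a
      rw [sub_sub_cancel]
    rw [h1]
    exact actH_comp H b a h
  rw [← h1, map_sub, map_one]
  rfl

lemma Fac.act_a_mem {m : ℤ} {h : H.A X} (hh : h ∈ H.gr X m) :
    H.act (H.cl a) h ∈ H.gr Y (m + 2 * e) := actH_mem H F.ha hh

lemma Fac.act_b_mem {m : ℤ} {h : H.A Y} (hh : h ∈ H.gr Y m) :
    H.act (H.cl b) h ∈ H.gr X (m + 2 * -e) := actH_mem H F.hb hh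

end act

end ring

end Pool.Agent.Zk43.CK
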