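import Pool.Agent.Zk43.CK.Geo

/-!
# Descent and ascent of Chow-Kunneth decompositions
-/

open CategoryTheory AlgebraicGeometry Finset

universe u v w

set_option maxHeartbeats 400000

namespace Pool.Agent.Zk43.CK

open Pool.Agent.H914 Pool.Agent.H914.VarClass Pool.Agent.H914.VarClass.Obj Pool.Agent.W492.BB
  Pool.Agent.W550.Corr Pool.Agent.TH133 Pool.Agent.Y107 Pool.Agent.Zk50.SD

set_option linter.unusedSectionVars false

lemma map_adj {R M : Type*} [Ring R] [AddCommGroup M] (L : R →+ M) {g : R} {d : ℕ} {β : ℕ → R}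
    (m : ℤ) (hβ : ∀ i, i ≠ d → i ≤ 2 * d → L (β i) = if m = i then L g else 0)
    (hm : L g ≠ 0 → 0 ≤ m ∧ m ≤ 2 * d) (i : ℕ) :
    L (adj g d β i) = if m = i then L g else 0 := by
  by_cases h0 : L g = 0
  · have hβ' : ∀ i, i ≠ d → i ≤ 2 * d → L (β i) = 0 := by
      intro i h1 h2
      rw [hβ i h1 h2, h0, ite_self]
    rw [h0, ite_self]
    unfold adj
    split_ifs with h1 h2
    · rw [map_sub, map_sum, h0, sum_eq_zero, sub_zero]
      intro j hj
      exact hβ' j (mem_er.1 hj).1 (mem_er.1 hj).2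
    · exact hβ' i h1 h2
    · exact map_zero L
  · obtain ⟨hm0, hm1⟩ := hm h0
    obtain ⟨n, rfl⟩ : ∃ n : ℕ, m = n := ⟨m.toNat, by omega⟩
    unfold adj
    split_ifs with h1 h2 h3 h4 h5
    · rw [map_sub, map_sum, sum_eq_zero, sub_zero]
      intro j hj
      rw [mem_er] at hj
      rw [hβ j hj.1 hj.2, if_neg (by omega)]
    · rw [map_sub, map_sum, sum_eq_single n]
      · rw [hβ n (by omega) (by omega), if_pos rfl, sub_self]
      · intro j hj hjn
        rw [mem_er] at hj
        rw [hβ j hj.1 hj.2, if_neg (by omega)]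
      · intro h
        exact absurd (mem_er.2 ⟨by omega, by omega⟩) h
    · rw [hβ i h1 h3, if_pos h4]
    · rw [hβ i h1 h3, if_neg h4]
    · omega
    · exact map_zero L

variable {k : Type u} [Field k] {𝒱 : VarClass k} {C : TheoryData.{u, v, 0} 𝒱 ℚ}
  [hC : IsChowProj C] {X Y Z : 𝒱.Obj}

include hC

lemma adj_mem {g : Cor C X} (hg : g ∈ cor0 C X) {d : ℕ} {β : ℕ → Cor C X}
    (hβ : ∀ i, β i ∈ cor0 C X) (i : ℕ) : adj g d β i ∈ cor0 C X := by
  unfold adj
  split_ifs
  · exact (cor0 C X).sub_mem hg ((cor0 C X).sum_mem (fun j _ => hβ j))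
  · exact hβ i
  · exact (cor0 C X).zero_mem

variable {K : Type w} [Field K] {H : WeilTheoryData.{u, v, w} C K} [hH : IsWeilProj H]
  {a : C.A (X.prod Y)} {b : C.A (Y.prod X)} {e : ℕ} {N : ℚ}

include hH

/-- evaluation at a class -/
noncomputable def evH (h : H.A X) : Cor C X →+ H.A X where
  toFun x := actH C X H x h
  map_zero' := by rw [map_zero]; rfl
  map_add' x y := by rw [map_add]; rfl

lemma evH_apply (h : H.A X) (x : Cor C X) : evH h x = actH C X H x h := rfl

/-- **Descent.** -/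
theorem Fac.descend (F : Fac e N a b) {P : ℕ → Cor C Y} (hP : IsCK H Y P)
    (hcom : ∀ i, cg a b * P i = P i * cg a b) :
    IsCK H X (fun n => sR a b (adj 1 X.dim (fun i => P (i + 2 * e)) n)) := by
  have hPm : ∀ i, P i ∈ cor0 C Y := hP.deg
  have hcomA : ∀ n, cg a b * adj 1 X.dim (fun i => P (i + 2 * e)) n =
      adj 1 X.dim (fun i => P (i + 2 * e)) n * cg a b := by
    intro n
    unfold adj
    split_ifs
    · rw [mul_sub, sub_mul, mul_one, one_mul, mul_sum, sum_mul]
      congr 1
      exact sum_congr rfl (fun j _ => hcom _)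
    · exact hcom _
    · rw [mul_zero, zero_mul]
  apply isCK_of
  · exact fun n => F.sR_mem (adj_mem (cor0 C Y).one_mem (fun i => hPm _) n)
  · intro i hi
    rw [adj_out hi, map_zero]
  · intro i j
    rw [F.sR_mul_of_comm (hcomA j), adj_mul (one_mul 1) (fun _ _ _ => one_mul _)
      (fun _ _ _ => mul_one _) (fun i j _ _ _ _ => by
        rw [hP.mul_eq]
        by_cases h : i = j
        · rw [if_pos h, if_pos (by rw [h])]
        · rw [if_neg h, if_neg (by omega)])]
    split_ifs
    · rfl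
    · exact map_zero _
  · rw [← map_sum, adj_sum, F.sR_one]
  · intro n m h hh
    by_cases h0 : h = 0
    · rw [h0, map_zero, ite_self]
    have hm0 : 0 ≤ m := nonneg_of_mem H hh h0
    have hm1 : m ≤ 2 * X.dim := by
      by_contra hc
      rw [gr_top H (by omega)] at hh
      exact h0 ((Submodule.mem_bot _).1 hh)
    rw [act_sR]
    obtain ⟨h', hh'⟩ : ∃ h', h' = H.act (H.cl a) h := ⟨_, rfl⟩
    have hmem : h' ∈ H.gr Y (m + 2 * e) := by rw [hh']; exact F.act_a_mem hh
    have h1 := map_adj (evH (C := C) (H := H) h') (g := (1 : Cor C Y)) (d := X.dim)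
      (β := fun i => P (i + 2 * e)) m (by
        intro i _ _
        rw [evH_apply, evH_apply, hP.actH_eq' _ _ hmem, map_one]
        by_cases hmi : m = i
        · rw [if_pos hmi, if_pos (by rw [hmi]; push_cast; ring)]
          rfl
        · rw [if_neg hmi, if_neg (by push_cast; omega)]) (fun _ => ⟨hm0, hm1⟩) n
    rw [evH_apply, evH_apply, map_one] at h1
    rw [← hh', h1]
    split_ifs
    · rw [hh']
      exact F.act_ab h
    · exact TheoryData.act_map_zero _ _

/-- Descent of self-duality. -/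
theorem Fac.descend_selfDual (F : Fac e N a b) {P : ℕ → Cor C Y}
    (hs : ∀ i ≤ 2 * Y.dim, tpR C Y (P i) = P (2 * Y.dim - i)) :
    IsSelfDual C (X := X) (fun n => sR a b (adj 1 X.dim (fun i => P (i + 2 * e)) n)) := by
  intro i hi
  have h1 := adj_tau (R := Cor C Y) (τ := tpR C Y) (g := 1) (d := X.dim)
    (β := fun i => P (i + 2 * e)) tpR_one (by
      intro i _ h2
      have h3 := hs (i + 2 * e) (by rw [F.hd]; omega)
      change tpR C Y (P (i + 2 * e)) = P (2 * X.dim - i + 2 * e)
      rw [h3, F.hd]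
      congr 1
      omega) i hi
  have h2 : tpR C X (sR a b (adj 1 X.dim (fun i => P (i + 2 * e)) i)) =
      sR a b (tpR C Y (adj 1 X.dim (fun i => P (i + 2 * e)) i)) := F.tpR_sR _
  have h3 : tpR C Y (adj 1 X.dim (fun i => P (i + 2 * e)) i) =
    adj 1 X.dim (fun i => P (i + 2 * e)) (2 * X.dim - i) := h1
  rw [h3] at h2
  exact h2

end Pool.Agent.Zk43.CK
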