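import Pool.Agent.Zk43.CK.Geo2

/-!
# Ascent of Chow-Kunneth decompositions
-/

open CategoryTheory AlgebraicGeometry Finset

universe u v w

set_option maxHeartbeats 400000

namespace Pool.Agent.Zk43.CK

open Pool.Agent.H914 Pool.Agent.H914.VarClass Pool.Agent.H914.VarClass.Obj Pool.Agent.W492.BB
  Pool.Agent.W550.Corr Pool.Agent.TH133 Pool.Agent.Y107 Pool.Agent.Zk50.SD

set_option linter.unusedSectionVars false

variable {k : Type u} [Field k] {𝒱 : VarClass k} {C : TheoryData.{u, v, 0} 𝒱 ℚ}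
  [hC : IsChowProj C] {X Y Z : 𝒱.Obj} {a : C.A (X.prod Y)} {b : C.A (Y.prod X)} {e : ℕ} {N : ℚ}

include hC

/-- the image of the decomposition `P` of `X` -/
noncomputable def fw (a : C.A (X.prod Y)) (b : C.A (Y.prod X)) (e : ℕ) (P : ℕ → Cor C X) (i : ℕ) :
    Cor C Y := if 2 * e ≤ i then sR b a (P (i - 2 * e)) else 0

lemma Fac.cg_fw (F : Fac e N a b) (P : ℕ → Cor C X) (i : ℕ) : cg a b * fw a b e P i = 0 := by
  unfold fw
  split_ifs
  · exact F.cg_fR _
  · exact mul_zero _

lemma Fac.fw_cg (F : Fac e N a b) (P : ℕ → Cor C X) (i : ℕ) : fw a b e P i * cg a b = 0 := by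
  unfold fw
  split_ifs
  · exact F.fR_cg _
  · exact zero_mul _

lemma Fac.fw_tau (F : Fac e N a b) {P : ℕ → Cor C X} (hout : ∀ i, 2 * X.dim < i → P i = 0)
    (hs : ∀ i ≤ 2 * X.dim, tpR C X (P i) = P (2 * X.dim - i)) (i : ℕ) (hi : i ≤ 2 * Y.dim) :
    tpR C Y (fw a b e P i) = fw a b e P (2 * Y.dim - i) := by
  have hd := F.hd
  unfold fw
  by_cases h1 : 2 * e ≤ i
  · rw [if_pos h1, F.tpR_fR]
    by_cases h2 : 2 * e ≤ 2 * Y.dim - i
    · rw [if_pos h2, hs _ (by omega)]
      congr 2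
      omega
    · rw [if_neg h2, hout _ (by omega), map_zero, map_zero]
  · rw [if_neg h1, map_zero]
    split_ifs with h2
    · rw [hout _ (by omega), map_zero]
    · rfl

variable {K : Type w} [Field K] {H : WeilTheoryData.{u, v, w} C K} [hH : IsWeilProj H]

include hH

lemma Fac.fw_mem (F : Fac e N a b) {P : ℕ → Cor C X} (hP : IsCK H X P) (i : ℕ) :
    fw a b e P i ∈ cor0 C Y := by
  unfold fw
  split_ifs
  · exact F.fR_mem (hP.deg _)
  · exact (cor0 C Y).zero_mem

lemma Fac.fw_mul (F : Fac e N a b) {P : ℕ → Cor C X} (hP : IsCK H X P) (i j : ℕ) :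
    fw a b e P i * fw a b e P j = if i = j then fw a b e P i else 0 := by
  unfold fw
  by_cases h1 : 2 * e ≤ i
  · by_cases h2 : 2 * e ≤ j
    · rw [if_pos h1, if_pos h2, F.fR_mul, hP.mul_eq]
      by_cases h3 : i = j
      · rw [if_pos h3, if_pos (by rw [h3])]
      · rw [if_neg h3, if_neg (by omega), map_zero]
    · rw [if_pos h1, if_neg h2, mul_zero, if_neg (by omega)]
  · rw [if_neg h1, zero_mul, ite_self]

lemma Fac.fw_sum (F : Fac e N a b) {P : ℕ → Cor C X} (hP : IsCK H X P) :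
    ∑ i ∈ range (2 * Y.dim + 1), fw a b e P i = 1 - cg a b := by
  have hd := F.hd
  have h1 : ∑ i ∈ range (2 * Y.dim + 1), fw a b e P i =
      ∑ i ∈ (range (2 * X.dim + 1)).image (fun n => n + 2 * e), fw a b e P i := by
    symm
    apply sum_subset
    · intro i hi
      obtain ⟨n, hn, rfl⟩ := mem_image.1 hi
      rw [mem_range] at hn ⊢
      omega
    · intro i _ hi2
      unfold fw
      split_ifs with h
      · have : P (i - 2 * e) = 0 := by
          apply hP.out
          by_contra hc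
          apply hi2
          rw [mem_image]
          exact ⟨i - 2 * e, mem_range.2 (by omega), by omega⟩
        rw [this, map_zero]
      · rfl
  rw [h1, sum_image (fun x _ y _ h => by simpa using h)]
  have h2 : ∀ n ∈ range (2 * X.dim + 1), fw a b e P (n + 2 * e) = sR b a (P n) := by
    intro n _
    unfold fw
    rw [if_pos (by omega), Nat.add_sub_cancel]
  rw [sum_congr rfl h2, ← map_sum, hP.sum_eq, F.fR_one]

lemma Fac.fw_act (F : Fac e N a b) {P : ℕ → Cor C X} (hP : IsCK H X P) (i : ℕ) (m : ℤ)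
    (y : H.A Y) (hy : y ∈ H.gr Y m) : actH C Y H (fw a b e P i) y =
      if m = i then y - actH C Y H (cg a b) y else 0 := by
  have hb := F.act_b_mem (H := H) hy
  unfold fw
  by_cases h1 : 2 * e ≤ i
  · rw [if_pos h1, act_sR, hP.actH_eq' _ _ hb]
    by_cases h2 : m = i
    · rw [if_pos h2, if_pos (by omega), F.act_ba]
    · rw [if_neg h2, if_neg (by omega)]
      exact TheoryData.act_map_zero _ _
  · rw [if_neg h1, map_zero]
    have h3 : (0 : Module.End K (H.A Y)) y = 0 := rfl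
    rw [h3]
    split_ifs with h2
    · rw [← F.act_ba]
      rw [H.gr_neg X _ (by omega)] at hb
      rw [(Submodule.mem_bot _).1 hb]
      exact (TheoryData.act_map_zero _ _).symm
    · rfl

/-- **Ascent.** -/
theorem Fac.ascend (F : Fac e N a b) {P : ℕ → Cor C X} (hP : IsCK H X P) {γ : ℕ → Cor C Y}
    (g0 : ∀ i, γ i ∈ cor0 C Y) (g1 : ∀ i, 2 * Y.dim < i → γ i = 0)
    (g2 : ∀ i j, γ i * γ j = if i = j then γ i else 0) (g3 : ∀ i, cg a b * γ i = γ i)
    (g4 : ∀ i, γ i * cg a b = γ i) (g5 : ∑ i ∈ range (2 * Y.dim + 1), γ i = cg a b)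
    (g6 : ∀ (i : ℕ) (m : ℤ) (y : H.A Y), y ∈ H.gr Y m →
      actH C Y H (γ i) y = if m = i then actH C Y H (cg a b) y else 0) :
    IsCK H Y (fun i => (γ i + fw a b e P i : Cor C Y)) := by
  have hd := F.hd
  have k1 : ∀ i j, γ i * fw a b e P j = 0 := by
    intro i j
    rw [← g4 i, mul_assoc, F.cg_fw, mul_zero]
  have k2 : ∀ i j, fw a b e P i * γ j = 0 := by
    intro i j
    rw [← g3 j, ← mul_assoc, F.fw_cg, zero_mul]
  apply isCK_of
  · exact fun i => (cor0 C Y).add_mem (g0 i) (F.fw_mem hP i)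
  · intro i hi
    rw [g1 i hi, zero_add, fw]
    split_ifs
    · have : P (i - 2 * e) = 0 := hP.out _ (by omega)
      rw [this, map_zero]
    · rfl
  · intro i j
    rw [add_mul, mul_add, mul_add, k1, k2, g2, F.fw_mul hP, add_zero, zero_add]
    split_ifs
    · rfl
    · exact add_zero _
  · rw [sum_add_distrib, g5, F.fw_sum hP, add_sub_cancel]
  · intro i m y hy
    rw [map_add]
    change actH C Y H (γ i) y + actH C Y H (fw a b e P i) y = _
    rw [g6 i m y hy, F.fw_act hP i m y hy]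
    split_ifs
    · rw [add_sub_cancel]
    · exact add_zero _

end Pool.Agent.Zk43.CK
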