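import Pool.Agent.Zk43.CK.Gam

/-!
# Nil complements do not matter for (self-dual) Chow-Kunneth decompositions
-/

open CategoryTheory AlgebraicGeometry Finset

universe u v w

set_option maxHeartbeats 400000

namespace Pool.Agent.Zk43.CK

open Pool.Agent.H914 Pool.Agent.H914.VarClass Pool.Agent.H914.VarClass.Obj Pool.Agent.W492.BB
  Pool.Agent.W550.Corr Pool.Agent.TH133 Pool.Agent.Y107 Pool.Agent.Zk50.SD

set_option linter.unusedSectionVars false

variable {k : Type u} [Field k] {𝒱 : VarClass k} {C : TheoryData.{u, v, 0} 𝒱 ℚ}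
  [hC : IsChowProj C] {K : Type w} [Field K] {H : WeilTheoryData.{u, v, w} C K}
  [hH : IsWeilProj H] {X Y Z : 𝒱.Obj} {a : C.A (X.prod Y)} {b : C.A (Y.prod X)} {e : ℕ} {N : ℚ}

include hC hH

/-- evaluation at a class, on the ring of correspondences of degree zero -/
noncomputable def evA (h : H.A X) : cor0 C X →+ H.A X where
  toFun x := actH C X H x.1 h
  map_zero' := by
    change actH C X H 0 h = 0
    rw [map_zero]; rfl
  map_add' x y := by
    change actH C X H (x.1 + y.1) h = _
    rw [map_add]; rfl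

lemma evA_apply (h : H.A X) (x : cor0 C X) : evA h x = actH C X H x.1 h := rfl

lemma act0_ext {x y : cor0 C X} (h : ∀ (m : ℤ) (c : H.A X), c ∈ H.gr X m →
    actH C X H x.1 c = actH C X H y.1 c) : act0 C H X x = act0 C H X y :=
  ext_gr H _ _ h

/-- The descent in one statement. -/
theorem Fac.descend' (F : Fac e N a b) {P : ℕ → Cor C Y} (hP : IsCK H Y P)
    (hcom : ∀ i, cg a b * P i = P i * cg a b) : ∃ Q : ℕ → C.A (X.prod X), IsCK H X Q ∧
      ((∀ i ≤ 2 * Y.dim, tpR C Y (P i) = P (2 * Y.dim - i)) → IsSelfDual C Q) :=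
  ⟨fun n => sR a b (adj 1 X.dim (fun i => P (i + 2 * e)) n), F.descend hP hcom,
    fun hs => F.descend_selfDual (H := H) (P := P) hs⟩

/-- **From `Y` to `X`.** -/
theorem Fac.down (F : Fac e N a b) (hn : NilCor H (cg0 a b)) {P : ℕ → Cor C Y}
    (hP : IsCK H Y P) : ∃ Q : ℕ → C.A (X.prod X), IsCK H X Q ∧
      (IsSelfDual C (X := Y) P → IsSelfDual C Q) := by
  have hPm : ∀ i, P i ∈ cor0 C Y := hP.deg
  obtain ⟨g, hg⟩ : ∃ g : cor0 C Y, g = ⟨cg a b, F.cg_mem⟩ := ⟨_, rfl⟩
  have hgv : (g : Cor C Y) = cg a b := by rw [hg]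
  obtain ⟨p, hp⟩ : ∃ p : ℕ → cor0 C Y, p = fun i => ⟨P i, hPm i⟩ := ⟨_, rfl⟩
  have hpv : ∀ i, (p i : Cor C Y) = P i := by intro i; rw [hp]
  have hgg : g * g = g := by
    apply Subtype.ext
    change (g : Cor C Y) * (g : Cor C Y) = g
    rw [hgv]
    exact F.cg_idem
  have hnil : NilAt (act0 C H Y) g := by
    rw [nilAt_iff, hgv]
    exact hn
  have hpp : ∀ i j, p i * p j = if i = j then p i else 0 := by
    intro i j
    apply Subtype.ext
    change (p i : Cor C Y) * (p j : Cor C Y) = _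
    rw [hpv, hpv, hP.mul_eq]
    split_ifs
    · exact (hpv i).symm
    · rfl
  have hsum : ∑ i ∈ range (2 * Y.dim + 1), p i = 1 := by
    apply Subtype.ext
    rw [AddSubmonoidClass.coe_finset_sum]
    have h1 : ∀ i ∈ range (2 * Y.dim + 1), (p i : Cor C Y) = P i := fun i _ => hpv i
    rw [sum_congr rfl h1]
    exact hP.sum_eq
  have hc : ∀ i ∈ range (2 * Y.dim + 1),
      act0 C H Y (p i) * act0 C H Y g = act0 C H Y g * act0 C H Y (p i) := by
    intro i _
    rw [← map_mul, ← map_mul]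
    apply act0_ext
    intro m c hc
    change actH C Y H ((p i : Cor C Y) * (g : Cor C Y)) c =
      actH C Y H ((g : Cor C Y) * (p i : Cor C Y)) c
    rw [map_mul, map_mul, Module.End.mul_apply, Module.End.mul_apply, hpv,
      hP.actH_eq' i m (actH_mem0 g.2 hc), hP.actH_eq' i m hc]
    split_ifs
    · rfl
    · exact (map_zero _).symm
  obtain ⟨u, v, huv, hvu, hφu, hφv, hcom, hτ⟩ := exists_commuting hgg hnil
    (range (2 * Y.dim + 1)) p (fun i _ => by rw [hpp, if_pos rfl])
    (fun i _ j _ hij => by rw [hpp, if_neg hij]) hsum hc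
  obtain ⟨P', hP'⟩ : ∃ P' : ℕ → Cor C Y, P' = fun i => (u : Cor C Y) * P i * (v : Cor C Y) :=
    ⟨_, rfl⟩
  have hP'i : ∀ i, P' i = (u : Cor C Y) * P i * (v : Cor C Y) := by intro i; rw [hP']
  have hconj : IsCK H Y P' := by
    rw [hP']
    apply hP.conj u.2 v.2 (congrArg Subtype.val huv) (congrArg Subtype.val hvu)
    intro c
    have h1 : act0 C H Y u c = (1 : Module.End K (H.A Y)) c := by rw [hφu]
    exact h1
  have hcom' : ∀ i, cg a b * P' i = P' i * cg a b := by
    intro i
    rw [hP'i]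
    rcases lt_or_ge (2 * Y.dim) i with hi | hi
    · have h0 : P i = 0 := hP.out i hi
      rw [h0, mul_zero, zero_mul, mul_zero, zero_mul]
    · have h1 := congrArg Subtype.val (hcom i (mem_range.2 (by omega)))
      rw [← hpv, ← hgv]
      exact h1
  obtain ⟨Q, hQ, hQs⟩ := F.descend' hconj hcom'
  refine ⟨Q, hQ, fun hs => hQs ?_⟩
  have hs' : ∀ i ≤ 2 * Y.dim, tr0 C Y (p i) = p (2 * Y.dim - i) := by
    intro i hi
    apply Subtype.ext
    change tpR C Y (p i : Cor C Y) = (p (2 * Y.dim - i) : Cor C Y)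
    rw [hpv, hpv]
    exact hs i hi
  have hτg : tr0 C Y g = g := by
    apply Subtype.ext
    change tpR C Y (g : Cor C Y) = g
    rw [hgv]
    exact F.tpR_cg
  have hτG : tr0 C Y (∑ i ∈ range (2 * Y.dim + 1), p i * g * p i) =
      ∑ i ∈ range (2 * Y.dim + 1), p i * g * p i := by
    rw [map_sum, ← sum_range_reflect (fun i => p i * g * p i)]
    apply sum_congr rfl
    intro i hi
    rw [mem_range] at hi
    have e1 : 2 * Y.dim + 1 - 1 - i = 2 * Y.dim - i := by omega
    rw [(tr0_antiInv C Y).mul, (tr0_antiInv C Y).mul, hs' i (by omega), hτg, e1, mul_assoc]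
  have hτu := hτ (tr0 C Y) (tr0_antiInv C Y) hτg hτG
  have hτv : tr0 C Y v = u := by rw [← hτu, (tr0_antiInv C Y).inv]
  intro i hi
  have h1 : tr0 C Y (u * p i * v) = u * p (2 * Y.dim - i) * v := by
    rw [(tr0_antiInv C Y).mul, (tr0_antiInv C Y).mul, hs' i hi, hτu, hτv, mul_assoc]
  have h2 := congrArg Subtype.val h1
  change tpR C Y ((u : Cor C Y) * (p i : Cor C Y) * (v : Cor C Y)) =
    (u : Cor C Y) * (p (2 * Y.dim - i) : Cor C Y) * (v : Cor C Y) at h2
  rw [hpv, hpv, ← hP'i, ← hP'i] at h2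
  exact h2

/-- **From `X` to `Y`.** -/
theorem Fac.up (F : Fac e N a b) (hn : NilCor H (cg0 a b))
    (hz : ∀ i : ℕ, ∃ z : C.A (Y.prod Y), C.Deg Y.dim z ∧ ∀ (m : ℤ) (y : H.A Y), H.Deg m y →
      H.act (H.cl z) y = if m = i then H.act (H.cl (cg0 a b)) y else 0) {P : ℕ → Cor C X}
    (hP : IsCK H X P) : ∃ Q : ℕ → C.A (Y.prod Y), IsCK H Y Q ∧
      (IsSelfDual C (X := X) P → IsSelfDual C Q) := by
  choose z z1 z2 using hz
  obtain ⟨Zr, hZr⟩ : ∃ Zr : ℕ → Cor C Y, Zr = fun i => z i := ⟨_, rfl⟩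
  have hZm : ∀ i, Zr i ∈ cor0 C Y := by intro i; rw [hZr]; exact z1 i
  have hZa : ∀ (i : ℕ) (m : ℤ) (y : H.A Y), y ∈ H.gr Y m →
      actH C Y H (Zr i) y = if m = i then actH C Y H (cg a b) y else 0 := by
    intro i m y hy
    rw [hZr]
    exact z2 i m y hy
  obtain ⟨g, hg⟩ : ∃ g : cor0 C Y, g = ⟨cg a b, F.cg_mem⟩ := ⟨_, rfl⟩
  have hgv : (g : Cor C Y) = cg a b := by rw [hg]
  have hgg : g * g = g := by
    apply Subtype.ext
    change (g : Cor C Y) * (g : Cor C Y) = g
    rw [hgv]
    exact F.cg_idem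
  have hnil : NilAt (act0 C H Y) g := by
    rw [nilAt_iff, hgv]
    exact hn
  have hτg : tr0 C Y g = g := by
    apply Subtype.ext
    change tpR C Y (g : Cor C Y) = g
    rw [hgv]
    exact F.tpR_cg
  obtain ⟨x, hx⟩ : ∃ x : ℕ → cor0 C Y, x = fun i =>
    ⟨Zr i + fw a b e P i, (cor0 C Y).add_mem (hZm i) (F.fw_mem hP i)⟩ := ⟨_, rfl⟩
  have hxv : ∀ i, (x i : Cor C Y) = Zr i + fw a b e P i := by intro i; rw [hx]
  have hxa : ∀ (i : ℕ) (m : ℤ) (y : H.A Y), y ∈ H.gr Y m →
      actH C Y H (x i : Cor C Y) y = if m = i then y else 0 := by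
    intro i m y hy
    rw [hxv, map_add]
    change actH C Y H (Zr i) y + actH C Y H (fw a b e P i) y = _
    rw [hZa i m y hy, F.fw_act hP i m y hy]
    split_ifs
    · rw [add_sub_cancel]
    · exact add_zero _
  obtain ⟨β, b1, b2, b3, b4, b5⟩ := exists_gamma (A := cor0 C Y) (φ := act0 C H Y)
    (τ := tr0 C Y) (g := g) (D := Y.dim) (x := x) (tr0_antiInv C Y) (fun _ h => act0_tr0 h) hgg
    hτg hnil (by
      intro i j
      rw [← map_mul]
      have h1 : (if i = j then act0 C H Y (x i) else 0) =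
          act0 C H Y (if i = j then x i else 0) := by
        split_ifs
        · rfl
        · exact (map_zero _).symm
      rw [h1]
      apply act0_ext
      intro m c hc
      change actH C Y H ((x i : Cor C Y) * (x j : Cor C Y)) c = _
      rw [map_mul, Module.End.mul_apply, hxa j m c hc]
      by_cases h2 : i = j
      · rw [if_pos h2, ← h2]
        by_cases h3 : m = i
        · rw [if_pos h3]
        · rw [if_neg h3, hxa i m c hc, if_neg h3, map_zero]
      · rw [if_neg h2]
        have h4 : actH C Y H ((0 : cor0 C Y) : Cor C Y) c = 0 := by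
          change actH C Y H 0 c = 0
          rw [map_zero]
          rfl
        rw [h4]
        by_cases h3 : m = j
        · rw [if_pos h3, hxa i m c hc, if_neg (by omega)]
        · rw [if_neg h3, map_zero]) (by
      intro i
      rw [← map_mul, ← map_mul]
      apply act0_ext
      intro m c hc
      change actH C Y H ((x i : Cor C Y) * (g : Cor C Y)) c =
        actH C Y H ((g : Cor C Y) * (x i : Cor C Y)) c
      rw [map_mul, map_mul, Module.End.mul_apply, Module.End.mul_apply,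
        hxa i m _ (actH_mem0 g.2 hc), hxa i m c hc]
      split_ifs
      · rfl
      · exact (map_zero _).symm) (by
      intro i hi
      apply act0_ext
      intro m c hc
      rw [hxa (2 * Y.dim - i) m c hc]
      exact act_tp_of_act (X := Y) (σ := (x i : Cor C Y)) hi (fun m y hy => hxa i m y hy) m c hc)
  obtain ⟨γ, hγ⟩ : ∃ γ : ℕ → cor0 C Y, γ = adj g Y.dim β := ⟨_, rfl⟩
  have c6 : ∀ (i : ℕ) (m : ℤ) (y : H.A Y), y ∈ H.gr Y m →
      actH C Y H (γ i : Cor C Y) y = if m = i then actH C Y H (cg a b) y else 0 := by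
    intro i m y hy
    have h1 := map_adj (evA (C := C) (H := H) y) (g := g) (d := Y.dim) (β := β) m (by
      intro i h1 h2
      have h3 : actH C Y H (β i : Cor C Y) y = actH C Y H (x i : Cor C Y)
          (actH C Y H (g : Cor C Y) y) := LinearMap.congr_fun (b5 i h1 h2) y
      rw [evA_apply, evA_apply, h3, hxa i m _ (actH_mem0 g.2 hy)]) (by
      intro h
      have hy0 : y ≠ 0 := by
        rintro rfl
        apply h
        rw [evA_apply, map_zero]
      refine ⟨nonneg_of_mem H hy hy0, ?_⟩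
      by_contra hc
      rw [gr_top H (by omega)] at hy
      exact hy0 ((Submodule.mem_bot _).1 hy)) i
    rw [hγ, ← hgv]
    exact h1
  have hγs : ∑ i ∈ range (2 * Y.dim + 1), (γ i : Cor C Y) = cg a b := by
    have h1 : ∑ i ∈ range (2 * Y.dim + 1), γ i = g := by rw [hγ]; exact adj_sum
    have h2 := congrArg Subtype.val h1
    rw [AddSubmonoidClass.coe_finset_sum] at h2
    rw [← hgv]
    exact h2
  refine ⟨_, F.ascend hP (γ := fun i => (γ i : Cor C Y)) (fun i => (γ i).2) ?_ ?_ ?_ ?_ hγs c6,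
    fun hs => ?_⟩
  · intro i hi
    have h1 : γ i = 0 := by rw [hγ]; exact adj_out hi
    change (γ i : Cor C Y) = 0
    rw [h1]
    rfl
  · intro i j
    have h1 : γ i * γ j = if i = j then γ i else 0 := by
      rw [hγ]
      exact adj_mul hgg b1 b2 b3 i j
    have h2 := congrArg Subtype.val h1
    change (γ i : Cor C Y) * (γ j : Cor C Y) = if i = j then (γ i : Cor C Y) else 0
    split_ifs with h
    · rw [if_pos h] at h2
      exact h2
    · rw [if_neg h] at h2
      exact h2
  · intro i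
    have h1 : g * γ i = γ i := by rw [hγ]; exact adj_left hgg b1 i
    have h2 := congrArg Subtype.val h1
    rw [← hgv]
    exact h2
  · intro i
    have h1 : γ i * g = γ i := by rw [hγ]; exact adj_right hgg b2 i
    have h2 := congrArg Subtype.val h1
    rw [← hgv]
    exact h2
  · intro i hi
    have h1 : tr0 C Y (γ i) = γ (2 * Y.dim - i) := by
      rw [hγ]
      exact adj_tau hτg b4 i hi
    have h2 : tpR C Y (γ i : Cor C Y) = (γ (2 * Y.dim - i) : Cor C Y) :=
      congrArg Subtype.val h1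
    have h3 := F.fw_tau (P := P) hP.out hs i hi
    have h4 : tpR C Y ((γ i : Cor C Y) + fw a b e P i) =
        (γ (2 * Y.dim - i) : Cor C Y) + fw a b e P (2 * Y.dim - i) := by
      rw [map_add, h2, h3]
    exact h4

end Pool.Agent.Zk43.CK
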