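import Pool.Agent.Zk50.SD.Lift

/-!
# Two close nil idempotents are conjugate under a unit, which is unitary for every anti-involution
fixing the two idempotents
-/

set_option autoImplicit false
set_option maxHeartbeats 400000

open Polynomial

namespace Pool.Agent.Zk43.CK

open Pool.Agent.Zk50.SD

variable {A B : Type*} [Ring A] [Ring B]

lemma nil_swap {a b : A} (h : IsNilpotent (b * a)) : IsNilpotent (a * b) := by
  obtain ⟨k, hk⟩ := h
  refine ⟨k + 1, ?_⟩
  have h1 : ∀ k : ℕ, (a * b) ^ (k + 1) = a * (b * a) ^ k * b := by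
    intro k
    induction k with
    | zero => simp
    | succ k ih =>
      rw [pow_succ, ih, pow_succ (b * a)]
      simp only [mul_assoc]
  rw [h1, hk, mul_zero, zero_mul]

lemma unit_swap {a b : A} (h : IsUnit (1 - b * a)) : IsUnit (1 - a * b) := by
  obtain ⟨z, hz⟩ := h
  obtain ⟨w, hw⟩ : ∃ w : A, w = (↑z⁻¹ : A) := ⟨_, rfl⟩
  have h1 : w * (1 - b * a) = 1 := by rw [hw, ← hz, Units.inv_mul]
  have h2 : (1 - b * a) * w = 1 := by rw [hw, ← hz, Units.mul_inv]
  have e1 : w - b * a * w = 1 := by rw [sub_mul, one_mul] at h2; exact h2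
  have e2 : w - w * (b * a) = 1 := by rw [mul_sub, mul_one] at h1; exact h1
  refine ⟨⟨1 - a * b, 1 + a * w * b, ?_, ?_⟩, rfl⟩
  · have : (1 - a * b) * (1 + a * w * b) = 1 - a * b + a * (w - b * a * w) * b := by
      noncomm_ring
    rw [this, e1, mul_one]
    noncomm_ring
  · have : (1 + a * w * b) * (1 - a * b) = 1 - a * b + a * (w - w * (b * a)) * b := by
      noncomm_ring
    rw [this, e2, mul_one]
    noncomm_ring

/-- A sum of nil idempotents is radical. -/
lemma unit_of_nilAt {φ : A →+* B} {ι : Type*} (s : Finset ι) (e : ι → A)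
    (he : ∀ i ∈ s, e i * e i = e i) (hn : ∀ i ∈ s, NilAt φ (e i)) :
    ∀ x, φ x = 0 → IsUnit (1 - x * ∑ i ∈ s, e i) := by
  classical
  induction s using Finset.induction_on with
  | empty =>
    intro x _
    simp
  | insert j s hj ih =>
    intro x hx
    have ih' := ih (fun i hi => he i (Finset.mem_insert_of_mem hi))
      (fun i hi => hn i (Finset.mem_insert_of_mem hi)) x hx
    obtain ⟨z, hz⟩ := ih'
    obtain ⟨w, hw⟩ : ∃ w : A, w = (↑z⁻¹ : A) := ⟨_, rfl⟩
    have h2 : (z : A) * w = 1 := by rw [hw, Units.mul_inv]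
    have hj1 := he j (Finset.mem_insert_self _ _)
    have hj2 := hn j (Finset.mem_insert_self _ _) (w * x) (by rw [map_mul, hx, mul_zero])
    have h3 : IsUnit (1 - e j * (w * x * e j)) := by
      rw [← mul_assoc]
      exact hj2.isUnit_one_sub
    have h4 : IsUnit (1 - w * x * e j * e j) := unit_swap h3
    rw [mul_assoc _ (e j) (e j), hj1] at h4
    have h5 : 1 - x * ∑ i ∈ insert j s, e i = z * (1 - w * x * e j) := by
      rw [Finset.sum_insert hj, mul_sub, mul_one, hz, mul_add, ← hz]
      have : (z : A) * (w * x * e j) = x * e j := by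
        rw [← mul_assoc, ← mul_assoc, h2, one_mul]
      rw [this, hz]
      abel
    rw [h5]
    exact z.isUnit.mul h4

lemma eq_zero_of_unit {η : A} (h : η * η = η) (hu : IsUnit (1 - η)) : η = 0 := by
  have h1 : (1 - η) * η = (1 - η) * 0 := by rw [sub_mul, one_mul, h, sub_self, mul_zero]
  exact hu.mul_left_cancel h1

section close

variable [Algebra ℚ A] {φ : A →+* B} {g g' : A}

/-- The unit between two close nil idempotents. -/
theorem exists_unit (hg : g * g = g) (hg' : g' * g' = g') (hφ : φ g' = φ g) (hn : NilAt φ g)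
    (hn' : NilAt φ g') :
    ∃ u v : A, u * v = 1 ∧ v * u = 1 ∧ φ u = 1 ∧ φ v = 1 ∧ g * u = u * g' ∧ v * g = g' * v ∧
      ∀ τ : A →+ A, AntiInv τ → τ g = g → τ g' = g' → τ u = v := by
  obtain ⟨c, hc⟩ : ∃ c, c = (g - g') * (g - g') := ⟨_, rfl⟩
  have hc' : c = g - g * g' - g' * g + g' := by
    rw [hc]
    have : (g - g') * (g - g') = g * g - g * g' - g' * g + g' * g' := by noncomm_ring
    rw [this, hg, hg']
  have c1 : c * g = g - g * g' * g := by
    rw [hc']
    have : (g - g * g' - g' * g + g') * g = g * g - g * g' * g - g' * (g * g) + g' * g := by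
      noncomm_ring
    rw [this, hg]
    abel
  have c2 : g * c = g - g * g' * g := by
    rw [hc']
    have : g * (g - g * g' - g' * g + g') = g * g - g * g * g' - g * g' * g + g * g' := by
      noncomm_ring
    rw [this, hg]
    abel
  have c3 : c * g' = g' - g' * g * g' := by
    rw [hc']
    have : (g - g * g' - g' * g + g') * g' = g * g' - g * (g' * g') - g' * g * g' + g' * g' := by
      noncomm_ring
    rw [this, hg']
    abel
  have c4 : g' * c = g' - g' * g * g' := by
    rw [hc']
    have : g' * (g - g * g' - g' * g + g') = g' * g - g' * g * g' - g' * g' * g + g' * g' := by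
      noncomm_ring
    rw [this, hg']
    abel
  have hcφ : φ c = 0 := by rw [hc, map_mul, map_sub, hφ, sub_self, mul_zero]
  have n1 : IsNilpotent (c * g') := by
    have h1 := hn' (c * g') (by rw [map_mul, hcφ, zero_mul])
    have h2 : g' * (c * g') * g' = c * g' := by
      rw [← mul_assoc, c4, ← c3, mul_assoc, mul_assoc, hg', hg']
    rwa [h2] at h1
  have n2 : IsNilpotent (c * (1 - g')) := by
    have h0 : IsNilpotent (c * g) := by
      have h1 := hn (c * g) (by rw [map_mul, hcφ, zero_mul])
      have h2 : g * (c * g) * g = c * g := by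
        rw [← mul_assoc, c2, ← c1, mul_assoc, mul_assoc, hg, hg]
      rwa [h2] at h1
    have h3 : (g * (1 - g')) * ((1 - g') * g) = c * g := by
      have : (g * (1 - g')) * ((1 - g') * g) =
          g * g - g * g' * g - g * g' * g + g * (g' * g') * g := by noncomm_ring
      rw [this, hg, hg', c1]
      abel
    have h4 : IsNilpotent (((1 - g') * g) * (g * (1 - g'))) := by
      apply nil_swap
      rw [h3]
      exact h0
    have h5 : ((1 - g') * g) * (g * (1 - g')) = c * (1 - g') := by
      have e1 : ((1 - g') * g) * (g * (1 - g')) =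
          (1 - g') * (g * g) * (1 - g') := by noncomm_ring
      have e2 : c * (1 - g') = c - c * g' := by rw [mul_sub, mul_one]
      rw [e1, hg, e2, c3, hc']
      noncomm_ring
    rwa [h5] at h4
  have hcg' : c * g' = g' * c := by rw [c3, c4]
  have hcg : c * g = g * c := by rw [c1, c2]
  have hcn : IsNilpotent c := by
    have h1 : c = c * g' + c * (1 - g') := by noncomm_ring
    rw [h1]
    have z1 : g' * (c * (1 - g')) = 0 := by
      rw [← mul_assoc, ← hcg', mul_assoc, mul_sub, mul_one, hg', sub_self, mul_zero]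
    have z2 : (1 - g') * (c * g') = 0 := by
      rw [hcg', ← mul_assoc, sub_mul, one_mul, hg', sub_self, zero_mul]
    refine Commute.isNilpotent_add ?_ n1 n2
    change c * g' * (c * (1 - g')) = c * (1 - g') * (c * g')
    rw [mul_assoc, z1, mul_assoc c (1 - g'), z2]
  obtain ⟨q, hq⟩ := exists_root hcn
  obtain ⟨b, hb⟩ : ∃ b, b = aeval c q := ⟨_, rfl⟩
  rw [← hb] at hq
  have hcomm : ∀ x : A, c * x = x * c → b * x = x * b := by
    intro x hx
    have := aeval_intertwine hx.symm q
    rw [← hb] at this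
    exact this.symm
  have hbc : b * c = c * b := hcomm c rfl
  obtain ⟨ρ, hρ⟩ : ∃ ρ, ρ = 1 - c * b := ⟨_, rfl⟩
  have hρ2 : ρ * ρ = 1 - c := by
    have h1 : ρ * ρ = 1 - c * (2 * b - b * c * b) := by
      rw [hρ]; noncomm_ring
    have h2 : 2 * b - b * c * b = 1 := by
      rw [hbc]
      have : c * b * b = c * b ^ 2 := by rw [pow_two, mul_assoc]
      rw [this]
      have h3 : 2 * b - c * b ^ 2 = 1 - (1 - 2 * b + c * b ^ 2) := by abel
      rw [h3, hq, sub_zero]
    rw [h1, h2, mul_one]
  have hρu : IsUnit ρ := by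
    rw [hρ]
    apply IsNilpotent.isUnit_one_sub
    exact Commute.isNilpotent_mul_right hbc.symm hcn
  obtain ⟨z, hz⟩ := hρu
  obtain ⟨r, hr⟩ : ∃ r : A, r = (↑z⁻¹ : A) := ⟨_, rfl⟩
  have r1 : r * ρ = 1 := by rw [hr, ← hz, Units.inv_mul]
  have r2 : ρ * r = 1 := by rw [hr, ← hz, Units.mul_inv]
  have hρx : ∀ x : A, c * x = x * c → ρ * x = x * ρ := by
    intro x hx
    rw [hρ, sub_mul, mul_sub, one_mul, mul_one, mul_assoc, hcomm x hx, ← mul_assoc, hx, mul_assoc]
  have hrx : ∀ x : A, c * x = x * c → r * x = x * r := by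
    intro x hx
    have h1 := hρx x hx
    calc r * x = r * x * (ρ * r) := by rw [r2, mul_one]
      _ = r * (x * ρ) * r := by simp only [mul_assoc]
      _ = r * (ρ * x) * r := by rw [h1]
      _ = r * ρ * x * r := by simp only [mul_assoc]
      _ = x * r := by rw [r1, one_mul]
  have hρφ : φ ρ = 1 := by rw [hρ, map_sub, map_one, map_mul, hcφ, zero_mul, sub_zero]
  have hrφ : φ r = 1 := by
    have := congrArg φ r1
    rwa [map_mul, hρφ, mul_one, map_one] at this
  obtain ⟨t, ht⟩ : ∃ t, t = g * g' + (1 - g) * (1 - g') := ⟨_, rfl⟩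
  obtain ⟨w, hw⟩ : ∃ w, w = g' * g + (1 - g') * (1 - g) := ⟨_, rfl⟩
  have gt : g * t = g * g' := by
    have : g * t = g * g * g' + (g - g * g) * (1 - g') := by rw [ht]; noncomm_ring
    rw [this, hg, sub_self, zero_mul, add_zero]
  have tg' : t * g' = g * g' := by
    have : t * g' = g * (g' * g') + (1 - g) * (g' - g' * g') := by rw [ht]; noncomm_ring
    rw [this, hg', sub_self, mul_zero, add_zero]
  have wg : w * g = g' * g := by
    have : w * g = g' * (g * g) + (1 - g') * (g - g * g) := by rw [hw]; noncomm_ring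
    rw [this, hg, sub_self, mul_zero, add_zero]
  have g'w : g' * w = g' * g := by
    have : g' * w = g' * g' * g + (g' - g' * g') * (1 - g) := by rw [hw]; noncomm_ring
    rw [this, hg', sub_self, zero_mul, add_zero]
  have tw : t * w = 1 - c := by
    have h1 : t * w = t * g' * g + (t - t * g') * (1 - g) := by rw [hw]; noncomm_ring
    have h2 : t - t * g' = 1 - g - g' + g * g' := by
      rw [tg', ht]; noncomm_ring
    rw [h1, h2, tg', hc']
    have h3 : g * g' * g + (1 - g - g' + g * g') * (1 - g) =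
      1 - g - g' + g * g' + g' * g - g + g * g := by noncomm_ring
    rw [h3, hg]
    abel
  have wt : w * t = 1 - c := by
    have h1 : w * t = w * g * g' + (w - w * g) * (1 - g') := by rw [ht]; noncomm_ring
    have h2 : w - w * g = 1 - g' - g + g' * g := by
      rw [wg, hw]; noncomm_ring
    rw [h1, h2, wg, hc']
    have h3 : g' * g * g' + (1 - g' - g + g' * g) * (1 - g') =
      1 - g' - g + g' * g + g * g' - g' + g' * g' := by noncomm_ring
    rw [h3, hg']
    abel
  have ct : c * t = t * c := by
    have h1 : c * t = c * g * g' + (c - c * g) * (1 - g') := by rw [ht]; noncomm_ring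
    have h2 : t * c = g * (g' * c) + (1 - g) * (c - g' * c) := by rw [ht]; noncomm_ring
    rw [h1, h2, hcg, ← hcg']
    have h3 : g * c * g' + (c - g * c) * (1 - g') = g * (c * g') + (1 - g) * (c - c * g') := by
      noncomm_ring
    exact h3
  refine ⟨t * r, r * w, ?_, ?_, ?_, ?_, ?_, ?_, ?_⟩
  · calc t * r * (r * w) = (t * r) * r * w := by simp only [mul_assoc]
      _ = (r * t) * r * w := by rw [hrx t ct]
      _ = r * (t * r) * w := by simp only [mul_assoc]
      _ = r * (r * t) * w := by rw [hrx t ct]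
      _ = r * r * (t * w) := by simp only [mul_assoc]
      _ = r * (r * ρ) * ρ := by rw [tw, ← hρ2]; simp only [mul_assoc]
      _ = 1 := by rw [r1, mul_one, r1]
  · calc r * w * (t * r) = r * (w * t) * r := by simp only [mul_assoc]
      _ = (r * ρ) * (ρ * r) := by rw [wt, ← hρ2]; simp only [mul_assoc]
      _ = 1 := by rw [r1, r2, mul_one]
  · have : φ t = 1 := by
      rw [ht, map_add, map_mul, map_mul, map_sub, map_sub, map_one, hφ, ← map_mul, hg]
      have h2 : (1 - φ g) * (1 - φ g) = 1 - φ g - φ g + φ g * φ g := by noncomm_ring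
      rw [h2, ← map_mul, hg]
      abel
    rw [map_mul, hrφ, this, mul_one]
  · have : φ w = 1 := by
      rw [hw, map_add, map_mul, map_mul, map_sub, map_sub, map_one, hφ, ← map_mul, hg]
      have h2 : (1 - φ g) * (1 - φ g) = 1 - φ g - φ g + φ g * φ g := by noncomm_ring
      rw [h2, ← map_mul, hg]
      abel
    rw [map_mul, hrφ, this, mul_one]
  · rw [← mul_assoc, gt, mul_assoc t r, hrx g' hcg', ← mul_assoc, tg']
  · rw [mul_assoc, wg, ← mul_assoc g' r, ← hrx g' hcg', mul_assoc r g' w, g'w]
  · intro τ hτ h1 h2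
    have hτc : τ c = c := by rw [hc, hτ.mul, map_sub, h1, h2]
    have hτb : τ b = b := by rw [hb, hτ.aeval, hτc]
    have hτρ : τ ρ = ρ := by rw [hρ, map_sub, hτ.one, hτ.mul, hτb, hτc, hbc]
    have hτr : τ r = r := by
      have h3 : τ r * ρ = 1 := by
        have := congrArg τ r2
        rwa [hτ.mul, hτρ, hτ.one] at this
      calc τ r = τ r * (ρ * r) := by rw [r2, mul_one]
        _ = r := by rw [← mul_assoc, h3, one_mul]
    rw [hτ.mul, hτr, ht, hw, map_add, hτ.mul, hτ.mul, map_sub, map_sub, hτ.one, h1, h2]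

end close

end Pool.Agent.Zk43.CK
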