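import Pool.Agent.Zk43.CK.RingA

/-!
# An orthogonal decomposition can be made to commute with a nil idempotent
-/

set_option autoImplicit false
set_option maxHeartbeats 400000

open Polynomial

namespace Pool.Agent.Zk43.CK

open Pool.Agent.Zk50.SD

variable {A B : Type*} [Ring A] [Ring B]

lemma comm_idem {P Γ : B} (hP : P * P = P) (hΓ : Γ * Γ = Γ) (h : P * Γ = Γ * P) :
    Γ * P * Γ * P * Γ = Γ * P * Γ := by
  have e : Γ * P * Γ * P * Γ = Γ * (P * Γ) * (P * Γ) := by simp only [mul_assoc]
  rw [e]
  have e2 : Γ * (P * Γ) * (P * Γ) = Γ * (Γ * P) * (P * Γ) := by rw [h]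
  rw [e2]
  have e3 : Γ * (Γ * P) * (P * Γ) = (Γ * Γ) * (P * P) * Γ := by simp only [mul_assoc]
  rw [e3, hP, hΓ]

/-- `NilAt` for `a * b` from `NilAt` for `g`, if `b = g * b` and `a = a * g`. -/
lemma nilAt_factor {φ : A →+* B} {g a b : A} (hn : NilAt φ g) (hb : g * b = b) (ha : a * g = a) :
    NilAt φ (a * b) := by
  intro x hx
  have h1 : a * b * x * (a * b) = a * (b * x * a * b) := by simp only [mul_assoc]
  rw [h1]
  apply nil_swap
  have h2 : b * x * a * b * a = g * (b * x * a * b * a) * g := by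
    calc b * x * a * b * a = (g * b) * x * a * b * (a * g) := by rw [hb, ha]
      _ = _ := by simp only [mul_assoc]
  rw [h2]
  apply hn
  rw [map_mul, map_mul, map_mul, map_mul, hx, mul_zero, zero_mul, zero_mul, zero_mul]

variable [Algebra ℚ A] {φ : A →+* B} {g : A}

theorem exists_close (hg : g * g = g) (hn : NilAt φ g) {ι : Type*} (s : Finset ι) (p : ι → A)
    (hp : ∀ i ∈ s, p i * p i = p i) (ho : ∀ i ∈ s, ∀ j ∈ s, i ≠ j → p i * p j = 0)
    (hsum : ∑ i ∈ s, p i = 1) (hc : ∀ i ∈ s, φ (p i) * φ g = φ g * φ (p i)) :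
    ∃ g' : A, g' * g' = g' ∧ NilAt φ g' ∧ φ g' = φ g ∧ (∀ i ∈ s, p i * g' = g' * p i) ∧
      ∀ τ : A →+ A, AntiInv τ → τ (∑ i ∈ s, p i * g * p i) = ∑ i ∈ s, p i * g * p i →
        τ g' = g' := by
  classical
  obtain ⟨G, hG⟩ : ∃ G, G = ∑ i ∈ s, p i * g * p i := ⟨_, rfl⟩
  have hGp : ∀ i ∈ s, G * p i = p i * g * p i := by
    intro i hi
    rw [hG, Finset.sum_mul, Finset.sum_eq_single i]
    · rw [mul_assoc, hp i hi]
    · intro j hj hji
      rw [mul_assoc, ho j hj i hi hji, mul_zero]
    · intro h
      exact absurd hi h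
  have hpG : ∀ i ∈ s, p i * G = p i * g * p i := by
    intro i hi
    rw [hG, Finset.mul_sum, Finset.sum_eq_single i]
    · rw [← mul_assoc, ← mul_assoc, hp i hi]
    · intro j hj hji
      rw [← mul_assoc, ← mul_assoc, ho i hi j hj (Ne.symm hji), zero_mul, zero_mul]
    · intro h
      exact absurd hi h
  have hΓ : φ g * φ g = φ g := by rw [← map_mul, hg]
  have hφG : φ G = φ g := by
    rw [hG, map_sum]
    have : ∀ i ∈ s, φ (p i * g * p i) = φ g * φ (p i) := by
      intro i hi
      rw [map_mul, map_mul, hc i hi, mul_assoc, ← map_mul, hp i hi]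
    rw [Finset.sum_congr rfl this, ← Finset.mul_sum, ← map_sum, hsum, map_one, mul_one]
  -- nilpotency of `G * G - G`
  have hD1 : ∀ i ∈ s, IsNilpotent ((p i * g * p i) * (p i * g * p i) - p i * g * p i) := by
    intro i hi
    have e1 : (p i * g * p i) * (p i * g * p i) - p i * g * p i =
        (p i * g) * ((g * p i * g - 1) * (g * p i)) := by
      have h1 : (p i * g) * ((g * p i * g - 1) * (g * p i)) =
          p i * (g * g) * p i * (g * g) * p i - p i * (g * g) * p i := by noncomm_ring
      have h2 : (p i * g * p i) * (p i * g * p i) = p i * g * (p i * p i) * g * p i := by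
        simp only [mul_assoc]
      rw [h1, h2, hg, hp i hi]
    rw [e1]
    apply nil_swap
    have e2 : ((g * p i * g - 1) * (g * p i)) * (p i * g) =
        g * p i * g * p i * g - g * p i * g := by
      have h1 : ((g * p i * g - 1) * (g * p i)) * (p i * g) =
        g * p i * (g * g) * (p i * p i) * g - g * (p i * p i) * g := by noncomm_ring
      rw [h1, hg, hp i hi]
    rw [e2]
    have h3 : g * (g * p i * g * p i * g - g * p i * g) * g =
        g * p i * g * p i * g - g * p i * g := by
      have h1 : g * (g * p i * g * p i * g - g * p i * g) * g =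
        (g * g) * p i * g * p i * (g * g) - (g * g) * p i * (g * g) := by noncomm_ring
      rw [h1, hg]
    rw [← h3]
    apply hn
    simp only [map_sub, map_mul]
    rw [comm_idem (by rw [← map_mul, hp i hi]) hΓ (hc i hi), sub_self]
  have hGG : G * G - G = ∑ i ∈ s, ((p i * g * p i) * (p i * g * p i) - p i * g * p i) := by
    have h0 : G * G = ∑ i ∈ s, (p i * g * p i) * G := by rw [← Finset.sum_mul, ← hG]
    rw [Finset.sum_sub_distrib, ← hG, h0]
    congr 1
    apply Finset.sum_congr rfl
    intro i hi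
    have h1 : p i * g * p i * G = p i * g * (p i * G) := by rw [mul_assoc]
    have h2 : (p i * g * p i) * (p i * g * p i) = p i * g * (p i * p i) * g * p i := by
      simp only [mul_assoc]
    rw [h1, hpG i hi, h2, hp i hi]
    simp only [mul_assoc]
  have hDn : IsNilpotent (G * G - G) := by
    rw [hGG]
    apply Commute.isNilpotent_sum hD1
    intro i j hi hj
    rcases eq_or_ne i j with h | h
    · rw [h]
    · have z : ∀ i ∈ s, ∀ j ∈ s, i ≠ j →
          ((p i * g * p i) * (p i * g * p i) - p i * g * p i) *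
          ((p j * g * p j) * (p j * g * p j) - p j * g * p j) = 0 := by
        intro i hi j hj h
        have h1 : ((p i * g * p i) * (p i * g * p i) - p i * g * p i) *
          ((p j * g * p j) * (p j * g * p j) - p j * g * p j) =
          (p i * g * p i * p i * g - p i * g) * (p i * p j) *
            (g * p j * (p j * g * p j) - g * p j) := by noncomm_ring
        rw [h1, ho i hi j hj h, mul_zero, zero_mul]
      change _ * _ = _ * _
      rw [z i hi j hj h, z j hj i hi h.symm]
  obtain ⟨N₀, hN₀⟩ := hDn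
  obtain ⟨N, hN, hN1⟩ : ∃ N, 0 < N ∧ (G * G - G) ^ N = 0 :=
    ⟨N₀ + 1, by omega, by rw [pow_succ, hN₀, zero_mul]⟩
  obtain ⟨P, h, r, hPh, hPr, q, hq⟩ := exists_poly hN
  have hev : aeval G ((X : ℚ[X]) ^ 2 * (X - 1)) = G * (G * G - G) := by
    rw [map_mul, map_pow, map_sub, map_one, aeval_X, pow_two]
    noncomm_ring
  have hev0 : aeval G (((X : ℚ[X]) ^ 2 * (X - 1)) ^ N) = 0 := by
    rw [map_pow, hev]
    have hcm : Commute G (G * G - G) := by
      change G * (G * G - G) = (G * G - G) * G
      noncomm_ring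
    rw [hcm.mul_pow, hN1, mul_zero]
  obtain ⟨g', hg'⟩ : ∃ g', g' = aeval G P := ⟨_, rfl⟩
  obtain ⟨k, hk⟩ : ∃ k, k = aeval G h := ⟨_, rfl⟩
  have hg1 : g' = G * k := by rw [hg', hPh, map_mul, aeval_X, hk]
  have hid : g' * g' = g' := by
    have h1 := congrArg (aeval G) hPr
    rw [map_sub, map_mul, map_mul, hev0, zero_mul, ← hg', sub_eq_zero] at h1
    exact h1
  have hφ : φ g' = φ g := by
    have h1 := congrArg (aeval G) hq
    rw [map_sub, map_mul, hev, map_pow, aeval_X, ← hg', pow_two] at h1
    have h2 : φ (g' - G * G) = 0 := by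
      rw [h1, map_mul, map_mul, map_sub, map_mul, hφG, hΓ, sub_self, mul_zero, zero_mul]
    rw [map_sub, map_mul, hφG, hΓ, sub_eq_zero] at h2
    exact h2
  have hcomm : ∀ i ∈ s, p i * g' = g' * p i := by
    intro i hi
    rw [hg']
    exact aeval_intertwine (by rw [hpG i hi, hGp i hi]) P
  have hcomk : ∀ i ∈ s, p i * k = k * p i := by
    intro i hi
    rw [hk]
    exact aeval_intertwine (by rw [hpG i hi, hGp i hi]) h
  -- the pieces of `g'` are nil
  have he1 : ∀ i ∈ s, (p i * g') * (p i * g') = p i * g' := by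
    intro i hi
    calc (p i * g') * (p i * g') = p i * (g' * p i) * g' := by simp only [mul_assoc]
      _ = p i * (p i * g') * g' := by rw [hcomm i hi]
      _ = p i * p i * (g' * g') := by simp only [mul_assoc]
      _ = p i * g' := by rw [hp i hi, hid]
  have he2 : ∀ i ∈ s, NilAt φ (p i * g') := by
    intro i hi
    have e1 : p i * g' = (p i * g) * (g * p i * k) := by
      rw [hg1, ← mul_assoc, hpG i hi]
      have : (p i * g) * (g * p i * k) = p i * (g * g) * p i * k := by simp only [mul_assoc]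
      rw [this, hg]
    rw [e1]
    apply nilAt_factor hn
    · rw [← mul_assoc, ← mul_assoc, hg]
    · rw [mul_assoc, hg]
  have hunit : ∀ x, φ x = 0 → IsUnit (1 - x * g') := by
    intro x hx
    have h1 := unit_of_nilAt s (fun i => p i * g') he1 he2 x hx
    rwa [← Finset.sum_mul, hsum, one_mul] at h1
  -- the unit of the corner of `g`
  obtain ⟨m, hm⟩ : ∃ m, m = g * (1 - g') * g := ⟨_, rfl⟩
  have hmφ : φ m = 0 := by
    rw [hm, map_mul, map_mul, map_sub, map_one, hφ, mul_sub, mul_one, hΓ, sub_self, zero_mul]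
  have hgm : g * m = m := by rw [hm, ← mul_assoc, ← mul_assoc, hg]
  have hmg : m * g = m := by rw [hm, mul_assoc, hg]
  have hmn : IsNilpotent m := by
    have := hn m hmφ
    rwa [hgm, hmg] at this
  obtain ⟨z, hz⟩ := hmn.isUnit_one_sub
  obtain ⟨w, hw⟩ : ∃ w : A, w = (↑z⁻¹ : A) := ⟨_, rfl⟩
  have w1 : w * (1 - m) = 1 := by rw [hw, ← hz, Units.inv_mul]
  have w2 : (1 - m) * w = 1 := by rw [hw, ← hz, Units.mul_inv]
  have zg : (1 - m) * g = g * g' * g := by
    rw [sub_mul, one_mul, hmg, hm]
    have : g * (1 - g') * g = g * g - g * g' * g := by noncomm_ring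
    rw [this, hg]
    abel
  have gz : g * (1 - m) = (1 - m) * g := by
    rw [sub_mul, mul_sub, one_mul, mul_one, hgm, hmg]
  have gw : g * w = w * g := by
    calc g * w = w * (1 - m) * g * w := by rw [w1, one_mul]
      _ = w * ((1 - m) * g) * w := by simp only [mul_assoc]
      _ = w * (g * (1 - m)) * w := by rw [gz]
      _ = w * g * ((1 - m) * w) := by simp only [mul_assoc]
      _ = w * g := by rw [w2, mul_one]
  have hwφ : φ w = 1 := by
    have := congrArg φ w1
    rwa [map_mul, map_sub, map_one, hmφ, sub_zero, mul_one] at this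
  have key : g * g' * w * g = g := by
    calc g * g' * w * g = g * g' * (w * g) := by simp only [mul_assoc]
      _ = g * g' * (g * w) := by rw [gw]
      _ = (g * g' * g) * w := by simp only [mul_assoc]
      _ = (1 - m) * g * w := by rw [zg]
      _ = g * ((1 - m) * w) := by rw [← gz]; simp only [mul_assoc]
      _ = g := by rw [w2, mul_one]
  obtain ⟨e, he⟩ : ∃ e, e = g' * w * g * g' := ⟨_, rfl⟩
  have hee : e * e = e := by
    have h1 : e * e = g' * w * (g * (g' * g') * w * g) * g' := by
      rw [he]; simp only [mul_assoc]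
    rw [h1, hid, key, he]
  have hge : g' * e = e := by
    have : g' * e = (g' * g') * w * g * g' := by rw [he]; simp only [mul_assoc]
    rw [this, hid, he]
  have heg : e * g' = e := by
    have : e * g' = g' * w * g * (g' * g') := by rw [he]; simp only [mul_assoc]
    rw [this, hid, he]
  have hη : g' - e = 0 := by
    have h1 : (g' - e) * (g' - e) = g' - e := by
      have : (g' - e) * (g' - e) = g' * g' - g' * e - e * g' + e * e := by noncomm_ring
      rw [this, hid, hge, heg, hee]
      abel
    apply eq_zero_of_unit h1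
    have h2 := hunit (g' - e) (by
      rw [map_sub, he, map_mul, map_mul, map_mul, hwφ, mul_one, hφ, hΓ, hΓ, sub_self])
    rwa [sub_mul, hid, heg] at h2
  have hge' : g' = (g' * w * g) * (g * g') := by
    have h1 : (g' * w * g) * (g * g') = g' * w * (g * g) * g' := by simp only [mul_assoc]
    rw [h1, hg, ← he]
    exact sub_eq_zero.1 hη
  refine ⟨g', hid, ?_, hφ, hcomm, ?_⟩
  · rw [hge']
    apply nilAt_factor hn
    · rw [← mul_assoc, hg]
    · rw [mul_assoc, hg]
  · intro τ hτ h1
    rw [← hG] at h1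
    rw [hg', hτ.aeval, h1]

/-- **An orthogonal decomposition of the unit can be conjugated into one which commutes with a nil
idempotent**, by an element which is unitary for every anti-involution which fixes the nil
idempotent and permutes the decomposition. -/
theorem exists_commuting (hg : g * g = g) (hn : NilAt φ g) {ι : Type*} (s : Finset ι) (p : ι → A)
    (hp : ∀ i ∈ s, p i * p i = p i) (ho : ∀ i ∈ s, ∀ j ∈ s, i ≠ j → p i * p j = 0)
    (hsum : ∑ i ∈ s, p i = 1) (hc : ∀ i ∈ s, φ (p i) * φ g = φ g * φ (p i)) :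
    ∃ u v : A, u * v = 1 ∧ v * u = 1 ∧ φ u = 1 ∧ φ v = 1 ∧
      (∀ i ∈ s, g * (u * p i * v) = (u * p i * v) * g) ∧
      ∀ τ : A →+ A, AntiInv τ → τ g = g →
        τ (∑ i ∈ s, p i * g * p i) = ∑ i ∈ s, p i * g * p i → τ u = v := by
  obtain ⟨g', h1, h2, h3, h4, h5⟩ := exists_close hg hn s p hp ho hsum hc
  obtain ⟨u, v, k1, k2, k3, k4, k5, k6, k7⟩ := exists_unit hg h1 h3 hn h2
  refine ⟨u, v, k1, k2, k3, k4, ?_, fun τ hτ ha hb => k7 τ hτ ha (h5 τ hτ hb)⟩
  intro i hi
  calc g * (u * p i * v) = (g * u) * p i * v := by simp only [mul_assoc]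
    _ = u * (g' * p i) * v := by rw [k5]; simp only [mul_assoc]
    _ = u * (p i * g') * v := by rw [h4 i hi]
    _ = u * p i * (g' * v) := by simp only [mul_assoc]
    _ = (u * p i * v) * g := by rw [← k6]; simp only [mul_assoc]

end Pool.Agent.Zk43.CK
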